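import Pool.Agent.NH52.CI.Stm

set_option autoImplicit false

/-! # CI-2: zero generators can be added -/

namespace Pool.Agent.NH52.CI

open MvPolynomial Pool.Agent.W574.SM Pool.Agent.W574.LM

namespace AddA

variable {σ ι κ : Type}

/-- the extension of a vector by zero -/
def ext (κ : Type) {ι : Type} (c : ι → ℤ) : κ ⊕ ι → ℤ := Sum.elim (fun _ => 0) c

theorem ext_injective : Function.Injective (ext κ : (ι → ℤ) → _) := by
  intro c c' h
  funext i
  exact congrFun h (Sum.inr i)

/-- the extension of an exponent by zero -/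
noncomputable def em (κ : Type) {ι : Type} (β : ι →₀ ℕ) : κ ⊕ ι →₀ ℕ :=
  Finsupp.mapDomain Sum.inr β

theorem em_inr (β : ι →₀ ℕ) (i : ι) : em κ β (Sum.inr i) = β i :=
  Finsupp.mapDomain_apply Sum.inr_injective β i

theorem em_inl (β : ι →₀ ℕ) (k : κ) : em κ β (Sum.inl k) = 0 :=
  Finsupp.mapDomain_of_notMem_range β _ (by simp)

theorem applyAt_em [Fintype ι] [Fintype κ] (P : (ι →₀ ℕ) →₀ weyl σ) (s : κ ⊕ ι → ℕ) (g : MvPolynomial σ ℂ) :
    applyAt (Finsupp.mapDomain (em κ) P) s g = applyAt P (fun i => s (Sum.inr i)) g := by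
  unfold applyAt
  rw [Finsupp.sum_mapDomain_index]
  · refine Finsupp.sum_congr fun β _ => ?_
    congr 1
    rw [Fintype.prod_sum_type]
    simp only [em_inr, em_inl, pow_zero, Finset.prod_const_one, one_mul]
  · intro β
    rw [ZeroMemClass.coe_zero, LinearMap.zero_apply, smul_zero]
  · intro β Q Q'
    rw [AddMemClass.coe_add, LinearMap.add_apply, smul_add]

theorem applyAt_zero [Fintype ι] (P : (ι →₀ ℕ) →₀ weyl σ) (s : ι → ℕ) :
    applyAt P s (0 : MvPolynomial σ ℂ) = 0 := by
  unfold applyAt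
  refine Finset.sum_eq_zero fun β _ => ?_
  show _ • ((P β : Module.End ℂ (MvPolynomial σ ℂ)) 0) = 0
  rw [map_zero, smul_zero]

end AddA

open AddA in
theorem t_ADD : S_ADD := by
  classical
  intro σ ι κ _ _ _ _ H f b ⟨S, P, hS, heq⟩
  refine ⟨S.image (ext κ), fun c' => Finsupp.mapDomain (em κ) (P fun i => c' (Sum.inr i)), ?_, ?_⟩
  · intro c' hc'
    obtain ⟨c, hc, rfl⟩ := Finset.mem_image.1 hc'
    rw [Fintype.sum_sum_type]
    show ∑ _k : κ, (0 : ℤ) + ∑ i, c i = 1
    rw [Finset.sum_const_zero, zero_add]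
    exact hS c hc
  · intro s
    rw [Finset.sum_image fun c _ c' _ h => ext_injective h]
    have hterm : ∀ c, applyAt (Finsupp.mapDomain (em κ) (P fun i => ext κ c (Sum.inr i))) s
        (C ((∏ j, (if ext κ c j < 0 then (s j).choose (-ext κ c j).toNat else 1) : ℕ) : ℂ) *
          ∏ j, (Sum.elim (fun _ : κ => (0 : MvPolynomial σ ℂ)) f) j ^ ((s j : ℤ) + ext κ c j).toNat) =
        applyAt (P c) (fun i => s (Sum.inr i))
          (C ((∏ i, (if c i < 0 then (s (Sum.inr i)).choose (-c i).toNat else 1) : ℕ) : ℂ) *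
            ((∏ k : κ, (0 : MvPolynomial σ ℂ) ^ s (Sum.inl k)) *
              ∏ i, f i ^ ((s (Sum.inr i) : ℤ) + c i).toNat)) := by
      intro c
      rw [applyAt_em, Fintype.prod_sum_type, Fintype.prod_sum_type]
      have h1 : ∏ k : κ, (if ext κ c (Sum.inl k) < 0 then
          (s (Sum.inl k)).choose (-ext κ c (Sum.inl k)).toNat else 1) = 1 :=
        Finset.prod_eq_one fun k _ => if_neg (lt_irrefl _)
      have h2 : ∀ k : κ, ((s (Sum.inl k) : ℤ) + ext κ c (Sum.inl k)).toNat = s (Sum.inl k) := by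
        intro k
        show ((s (Sum.inl k) : ℤ) + 0).toNat = _
        rw [add_zero, Int.toNat_natCast]
      simp only [h1, h2, one_mul, Sum.elim_inl]
      rfl
    rw [Finset.sum_congr rfl fun c _ => hterm c, Fintype.prod_sum_type, Fintype.sum_sum_type]
    simp only [Sum.elim_inl, Sum.elim_inr]
    by_cases h : ∀ k : κ, s (Sum.inl k) = 0
    · have h1 : ∏ k : κ, (0 : MvPolynomial σ ℂ) ^ s (Sum.inl k) = 1 :=
        Finset.prod_eq_one fun k _ => by rw [h k, pow_zero]
      have h2 : ∑ k : κ, s (Sum.inl k) = 0 := Finset.sum_eq_zero fun k _ => h k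
      simp only [h1, h2, one_mul, zero_add]
      exact heq fun i => s (Sum.inr i)
    · push Not at h
      obtain ⟨k, hk⟩ := h
      have h1 : ∏ k : κ, (0 : MvPolynomial σ ℂ) ^ s (Sum.inl k) = 0 :=
        Finset.prod_eq_zero (Finset.mem_univ k) (zero_pow hk)
      simp only [h1, zero_mul, mul_zero]
      exact (Finset.sum_eq_zero fun c _ => applyAt_zero _ _).symm

end Pool.Agent.NH52.CI
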