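import Pool.Agent.NH52.CI.Stm

/-! # Project CI, part CI-7: linear algebra (helper15) -/

set_option autoImplicit false

namespace Pool.Agent.NH52.CI

theorem t_ALG : S_ALG := by
  intro R ι κ _ _ _ _ _ f a hs
  have h1 : ∀ i, ∃ c : κ → R, ∑ k, c k * a k = f i := by
    intro i
    have h : f i ∈ Ideal.span (Set.range a) := by
      rw [← hs]
      exact Ideal.subset_span ⟨i, rfl⟩
    exact Ideal.mem_span_range_iff_exists_fun.1 h
  have h2 : ∀ k, ∃ c : ι → R, ∑ i, c i * f i = a k := by
    intro k
    have h : a k ∈ Ideal.span (Set.range f) := by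
      rw [hs]
      exact Ideal.subset_span ⟨k, rfl⟩
    exact Ideal.mem_span_range_iff_exists_fun.1 h
  choose v hv using h1
  choose u hu using h2
  let B : Matrix ι κ R := Matrix.of fun i k => - u k i
  let C : Matrix κ ι R := Matrix.of fun k i => v i k
  refine ⟨Matrix.fromBlocks 1 B C (1 + C * B), ?_, ?_⟩
  · rw [Matrix.det_fromBlocks_one₁₁, add_sub_cancel_right, Matrix.det_one]
    exact isUnit_one
  · intro l
    rw [Fintype.sum_sum_type]
    have hz : ∑ i : ι, Matrix.fromBlocks 1 B C (1 + C * B) (Sum.inl i) l *
        (Sum.elim 0 a : ι ⊕ κ → R) (Sum.inl i) = 0 := by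
      apply Finset.sum_eq_zero
      intro i _
      simp
    rw [hz, zero_add]
    cases l with
    | inl i =>
      simp only [Sum.elim_inl, Sum.elim_inr, Matrix.fromBlocks_apply₂₁]
      rw [← hv i]
      rfl
    | inr k =>
      simp only [Sum.elim_inr, Matrix.fromBlocks_apply₂₂, Pi.zero_apply, Matrix.add_apply,
        Matrix.mul_apply, add_mul, Finset.sum_add_distrib]
      have e1 : ∑ x : κ, (1 : Matrix κ κ R) x k * a x = a k := by
        simp [Matrix.one_apply]
      have e2 : ∑ x : κ, (∑ j : ι, C x j * B j k) * a x = - a k := by
        calc ∑ x : κ, (∑ j : ι, C x j * B j k) * a x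
            = ∑ x : κ, ∑ j : ι, - u k j * (v j x * a x) := by
              apply Finset.sum_congr rfl
              intro x _
              rw [Finset.sum_mul]
              apply Finset.sum_congr rfl
              intro j _
              show v j x * (- u k j) * a x = _
              ring
          _ = ∑ j : ι, ∑ x : κ, - u k j * (v j x * a x) := Finset.sum_comm
          _ = ∑ j : ι, - (u k j * f j) := by
              apply Finset.sum_congr rfl
              intro j _
              rw [← Finset.mul_sum, hv j]
              ring
          _ = - a k := by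
              rw [Finset.sum_neg_distrib, hu k]
      rw [e1, e2]
      ring
end Pool.Agent.NH52.CI
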