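import Pool.Agent.W574.HS.ConvL
import Pool.Agent.W574.LM.Eng
import Pool.Agent.Y229.GL.Chg
import Pool.Agent.Y229.PS.Red

set_option autoImplicit false

/-! # Formal isomorphisms of germs of ideals, cones: the statements of the parts -/

namespace Pool.Agent.NH52.CI

open MvPolynomial Pool.Agent.W574.SM Pool.Agent.W574.LM Pool.Agent.W574.HS
open Pool.Agent.H628R4.TP (IsLocalBFunction)
open Pool.Agent.Y229.GL (IsCoord)
open Pool.Agent.Y229.PS (IsFormalBFunction)

/-- the translation by `p` -/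
noncomputable def tr {n : ℕ} (p : Fin n → ℂ) :
    MvPolynomial (Fin n) ℂ →ₐ[ℂ] MvPolynomial (Fin n) ℂ :=
  aeval fun i => X i + C (p i)

/-- CI-1: zero generators can be dropped -/
def S_DROP : Prop :=
  ∀ {σ ι κ : Type} [Fintype ι] [DecidableEq ι] [Fintype κ] [DecidableEq κ]
    (H : MvPolynomial σ ℂ) (f : ι → MvPolynomial σ ℂ) (b : Polynomial ℂ),
    IsLocEq H (Sum.elim f (fun _ : κ => 0)) b → IsLocEq H f b

/-- CI-2: zero generators can be added -/
def S_ADD : Prop :=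
  ∀ {σ ι κ : Type} [Fintype ι] [DecidableEq ι] [Fintype κ] [DecidableEq κ]
    (H : MvPolynomial σ ℂ) (f : ι → MvPolynomial σ ℂ) (b : Polynomial ℂ),
    IsLocEq H f b → IsLocEq H (Sum.elim (fun _ : κ => (0 : MvPolynomial σ ℂ)) f) b

/-- CI-3: from the ideal to `∑ y_j f_j`, locally -/
def S_UNI : Prop :=
  ∀ {σ ι : Type} [Fintype ι] [DecidableEq ι] [Fintype σ] [DecidableEq σ]
    (H : MvPolynomial σ ℂ) (f : ι → MvPolynomial σ ℂ) (b : Polynomial ℂ),
    constantCoeff H ≠ 0 → IsLocEq H f b →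
      IsLocalBFunction (univ f) ((Polynomial.X + 1) * b)

/-- CI-4: from `∑ y_j f_j` to the ideal, locally, with the factor `s + 1` -/
def S_STR : Prop :=
  ∀ {σ ι : Type} [Fintype ι] [DecidableEq ι] [Fintype σ] [DecidableEq σ]
    (f : ι → MvPolynomial σ ℂ) (b : Polynomial ℂ), (∃ j, f j ≠ 0) →
    IsLocalBFunction (univ f) b → ∃ (b' : Polynomial ℂ) (H : MvPolynomial σ ℂ),
      b = (Polynomial.X + 1) * b' ∧ constantCoeff H ≠ 0 ∧ IsLocEq H f b'

/-- `∑_j w_j h_j(x)` as a power series in the variables `(w, x)` -/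
noncomputable def lin {q n : ℕ} (h : Fin q → MvPowerSeries (Fin n) ℂ) :
    MvPowerSeries (Fin (q + n)) ℂ :=
  ∑ j, MvPowerSeries.X (Fin.castAdd n j) * MvPowerSeries.rename (Fin.natAdd q) (h j)

/-- CI-5: formal coordinates of `x` and invertible linear substitutions of `w` -/
def S_LIN : Prop :=
  ∀ {q n : ℕ} (T : Matrix (Fin q) (Fin q) (MvPowerSeries (Fin n) ℂ)) (_ : IsUnit T.det)
    (φ : Fin n → MvPowerSeries (Fin n) ℂ) (_ : IsCoord φ)
    (_ : ∀ i, MvPowerSeries.constantCoeff (φ i) = 0)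
    (h : Fin q → MvPowerSeries (Fin n) ℂ) (b : Polynomial ℂ),
    IsFormalBFunction (lin h) b →
      IsFormalBFunction (lin fun l => ∑ j, T j l * MvPowerSeries.subst φ (h j)) b

/-- CI-6: `∑ y_j f_j` as a formal power series -/
def S_FOR : Prop :=
  ∀ {κ : Type} [Fintype κ] [DecidableEq κ] {q n : ℕ} (ek : κ ≃ Fin q)
    (h : κ → MvPolynomial (Fin n) ℂ) (b : Polynomial ℂ),
    IsLocalBFunction (univ h) b ↔
      IsFormalBFunction (lin fun j => ((h (ek.symm j) : MvPolynomial (Fin n) ℂ) :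
        MvPowerSeries (Fin n) ℂ)) b

/-- CI-7: linear algebra -/
def S_ALG : Prop :=
  ∀ {R ι κ : Type} [CommRing R] [Fintype ι] [DecidableEq ι] [Fintype κ] [DecidableEq κ]
    (f : ι → R) (a : κ → R), Ideal.span (Set.range f) = Ideal.span (Set.range a) →
    ∃ T : Matrix (ι ⊕ κ) (ι ⊕ κ) R, IsUnit T.det ∧
      ∀ l, (Sum.elim f 0 : ι ⊕ κ → R) l = ∑ j, T j l * (Sum.elim 0 a : ι ⊕ κ → R) j

/-- CI-8: translations -/
def S_TRA : Prop :=
  ∀ {ι : Type} [Fintype ι] {n : ℕ} (p : Fin n → ℂ) (g : ι → MvPolynomial (Fin n) ℂ)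
    (b : Polynomial ℂ), IsFunctionalEq g b → IsFunctionalEq (fun j => tr p (g j)) b

end Pool.Agent.NH52.CI
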