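import Pool.Agent.NH52.CI.Stm
import Pool.Agent.W428.MOT.Stm
import Pool.Agent.W574.MO.Alg

set_option autoImplicit false

/-! # Monomial ideals: the statements of the parts -/

namespace Pool.Agent.NH52.CI

open Pool.Agent.W574.SM Pool.Agent.W574.LM Pool.Agent.W574.MO
open Pool.Agent.W426.SM (gord ford IsRay face)
open Pool.Agent.W428.MOT (cp free Adm amin wt)

/-- the monomials `x ^ (m_j)` -/
noncomputable def mono {n r : ℕ} (m : Fin r → Fin n → ℕ) (j : Fin r) : MvPolynomial (Fin n) ℂ :=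
  ∏ i, MvPolynomial.X i ^ m j i

/-- The volume of the set of the arcs `x(t)` with the origin `0`, on which all the monomials
`x ^ (m_j)` have an order at least `e`; the arcs with the origin `0` have the volume `1`. The sum is
over the orders `u_i ≥ 1` of the coordinates, where `u_i = e + 1` stands for an order greater than
`e`. -/
noncomputable def mvol {M : Type} [CommRing M] (L : Mˣ) {n r : ℕ} (m : Fin r → Fin n → ℕ)
    (e : ℕ) : M :=
  ∑ u ∈ (Fintype.piFinset fun _ : Fin n => Finset.Icc 1 (e + 1)).filter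
    (fun u => ∀ j, e ≤ ∑ i, u i * m j i),
    ∏ i, (if u i ≤ e then (1 - ((L⁻¹ : Mˣ) : M)) * ((L⁻¹ : Mˣ) : M) ^ (u i - 1)
      else ((L⁻¹ : Mˣ) : M) ^ e)

/-- the exponents of the ideal `(x ^ (m_j)) + (z)` -/
def ext1 {n r : ℕ} (m : Fin r → Fin n → ℕ) : Fin (r + 1) → Fin (n + 1) → ℕ :=
  Fin.snoc (fun j => Fin.snoc (m j) 0) (Fin.snoc (fun _ => 0) 1)

/-- CI-9: the combinatorial identity -/
def S_COM : Prop :=
  ∀ {M : Type} [CommRing M] (L : Mˣ) {n r : ℕ} (m : Fin r → Fin n → ℕ) (e : ℕ), 1 ≤ e →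
    ∑ τ ∈ (Finset.univ : Finset (Finset (Fin (r + 1)))).filter (fun τ => Fin.last r ∈ τ),
      (1 - ((L⁻¹ : Mˣ) : M)) ^ (n - (free (0 : Fin (n + 1) → ℕ) (ext1 m) Finset.univ τ).card) *
        Polynomial.eval₂ (Int.castRingHom M) ((L⁻¹ : Mˣ) : M)
          (cp (0 : Fin (n + 1) → ℕ) (ext1 m) 1 Finset.univ τ e e) =
      ((L⁻¹ : Mˣ) : M) ^ (n + e) * mvol L m e

/-- CI-10: the rays -/
def S_RAY : Prop :=
  ∀ {n r : ℕ} (m : Fin r → Fin n → ℕ), 0 < r → ∀ a : Fin (n + 1) → ℕ,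
    IsRay (ext1 m) a → 0 < ford (0 : Fin (n + 1) → ℕ) (ext1 m) 1 a →
      IsRay m (Fin.init a) ∧ 0 < gord m (Fin.init a) ∧ a (Fin.last n) = gord m (Fin.init a) ∧
        ford (0 : Fin (n + 1) → ℕ) (ext1 m) 1 a = gord m (Fin.init a)

/-- CI-11: the denominators -/
def S_DEN : Prop :=
  ∀ {M : Type} [CommRing M] (L : Mˣ) {n r : ℕ} (m : Fin r → Fin n → ℕ), 0 < r →
    PowerSeries.mk (mvol L m) ∈ DenRing L (fun N k => ∃ a : Fin n → ℕ, IsRay m a ∧
      N = gord m a ∧ k = ∑ i, a i)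

/-- CI-12: the roots -/
def S_MRT : Prop :=
  ∀ {n r : ℕ} (m : Fin r → Fin n → ℕ) (a : Fin n → ℕ), IsRay m a → 0 < gord m a →
    ∀ (H : MvPolynomial (Fin n) ℂ) (b : Polynomial ℂ), MvPolynomial.constantCoeff H ≠ 0 →
      IsLocEq H (mono m) b → b.eval (-((∑ i, a i : ℕ) : ℂ) / (gord m a : ℕ)) = 0

end Pool.Agent.NH52.CI
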