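import Pool.Agent.R852.MC.Defs
import Pool.Agent.NH52.CI.Stm
import Pool.Agent.NH52.CI.Stm2
import Pool.Agent.NH97.MM.SemiDef

set_option autoImplicit false

/-! # Germs of ideals: a class closed under formal isomorphisms and cones

See `Pool/Agent/W574/RO/Defs`, `Pool/Agent/Y229/SPDefs` and `Pool/Agent/R852/MC/Defs` for the
notation: `M` is a commutative ring with a unit `L`, for instance `K₀(Var_ℂ)[1/L]`, and
`Z = ∫ T^(ord I) dμ = ∑_e μ(ord I = e) T^e` is the local motivic zeta function at the origin of the
ideal `I`, the integral over the arcs with the origin `0`, where the set of all these arcs has the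
volume `1`. -/

namespace Pool.Agent.NH52.CI

open MvPolynomial Pool.Agent.W574.SM Pool.Agent.W574.MO Pool.Agent.W574.CN Pool.Agent.W574.RO
open Pool.Agent.Y229 Pool.Agent.R852.TP Pool.Agent.R852.MC
open Pool.Agent.Y229.GL (IsCoord)

variable {M : Type} [CommRing M]

/-- `CL L A Z`: the germ at the origin of the ideal which is generated by the family `A` is in the
least class with the following properties, and `Z` is its local motivic zeta function at the origin,
normalized such that the arcs with the origin `0` have the volume `1`. -/
inductive CL (L : Mˣ) : Fam → PowerSeries M → Prop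
  /-- the germs in `ML` -/
  | ml (A : Fam) (Z : PowerSeries M) (h : ML L A Z) : CL L A Z
  /-- **Monomial ideals** in any number of variables, see `mvol`: the coefficient of `T ^ e` of the
  zeta function is the volume of the arcs with `ord I = e` -/
  | mono (n r : ℕ) (hr : 0 < r) (m : Fin r → Fin n → ℕ) :
      CL L ⟨Fin n, Fin r, mono m⟩ (PowerSeries.mk fun e => mvol L m e - mvol L m (e + 1))
  /-- **Semi-quasihomogeneous ideals of finite colength** (helper97). Let the `f_j` have no terms of
  weighted degree `< d`, for the weights `w_i = d / m_i`, and let their weighted homogeneous components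
  of degree `d` have no common zero outside the origin (then `n + 1` of them are algebraically
  independent if there are enough of them: a Jacobian determinant is not zero). The order of the ideal
  along an arc `x(t)` with `x(0) = 0` is `min_i m_i ord x_i`, see `semiSeries`. -/
  | semi (n r : ℕ) (f : Fin r → MvPolynomial (Fin (n + 1)) ℂ) (w m : Fin (n + 1) → ℕ) (d : ℕ)
      (hd : 0 < d) (hwm : ∀ i, w i * m i = d)
      (hf : ∀ j, ∀ k < d, weightedHomogeneousComponent w k (f j) = 0)
      (h0 : ∀ p : Fin (n + 1) → ℂ,
        (∀ j, eval p (weightedHomogeneousComponent w d (f j)) = 0) → p = 0)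
      (e : Fin (n + 1) → Fin r)
      (he : (Matrix.of fun s t => pderiv s (weightedHomogeneousComponent w d (f (e t)))).det ≠ 0) :
      CL L ⟨Fin (n + 1), Fin r, f⟩ (Pool.Agent.NH97.MM.semiSeries L m)
  /-- **Formal isomorphisms and changes of the generators.** If the germ of the ideal `(f_j)` is in
  the class, and if the ideal `(g_k)`, written in the formal coordinates `φ`, is equal to `(f_j)` in
  the ring of formal power series, then the germ of `(g_k)` is in the class, with the same zeta
  function. -/
  | iso (n r r' : ℕ) (f : Fin r → MvPolynomial (Fin n) ℂ) (g : Fin r' → MvPolynomial (Fin n) ℂ)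
      (φ : Fin n → MvPowerSeries (Fin n) ℂ) (hφ : IsCoord φ)
      (h0 : ∀ i, MvPowerSeries.constantCoeff (φ i) = 0)
      (h : Ideal.span (Set.range fun j => (f j : MvPowerSeries (Fin n) ℂ)) =
        Ideal.span (Set.range fun k => MvPowerSeries.subst φ (g k : MvPowerSeries (Fin n) ℂ)))
      (Z : PowerSeries M) (hA : CL L ⟨Fin n, Fin r, f⟩ Z) : CL L ⟨Fin n, Fin r', g⟩ Z
  /-- **Cones.** Let `I` be generated by forms `f_j` of degree `d > 0` in `x₀, ..., xₙ`, `n + 1` of
  which are algebraically independent (their Jacobian determinant is not zero), and let `J` be the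
  ideal sheaf on the projective space `Pⁿ` which they define. Let `w₀` be the class of the complement
  of the zero locus of `J`, and let the zero locus be the disjoint union of locally closed subsets
  `S_t` with the classes `w_t`, such that the germs of `J` at the points of `S_t` have the zeta
  function `Z_t`; the germ of `J` at one of these points, the point `p_t` of the chart `x_(i_t) = 1`,
  is supposed to be in the class. The blow-up of the origin is the total space of the line bundle
  `O(-1)` over `Pⁿ`, on which the ideal `I` is `O(-d E)` times the pull-back of `J`, and `E` has the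
  numerical data `(d, n + 1)`. -/
  | cone (n r : ℕ) (f : Fin r → MvPolynomial (Fin (n + 1)) ℂ) (d : ℕ) (hd : 0 < d)
      (hf : ∀ j, (f j).IsHomogeneous d) (e : Fin (n + 1) → Fin r)
      (he : (Matrix.of fun s t => pderiv s (f (e t))).det ≠ 0)
      (m : ℕ) (i : Fin m → Fin (n + 1)) (p : Fin m → Fin n → ℂ) (w₀ : M) (w : Fin m → M)
      (hw : w₀ + ∑ t, w t = ∑ k ∈ Finset.range (n + 1), (L : M) ^ k) (Z : Fin m → PowerSeries M)
      (hZ : ∀ t, CL L ⟨Fin n, Fin r, fun j => tr (p t) (deh (i t) (f j))⟩ (Z t)) :
      CL L ⟨Fin (n + 1), Fin r, f⟩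
        ((PowerSeries.C w₀ + ∑ t, PowerSeries.C (w t) * Z t) * mf L d (n + 1))
  /-- the sum of two ideals in disjoint sets of variables -/
  | sum (A B : Fam) (Z W : PowerSeries M) (hA : CL L A Z) (hB : CL L B W) :
      CL L (A.sum B) (sumSeries Z W)
  /-- the product of two ideals in disjoint sets of variables: the orders are added -/
  | mul (A B : Fam) (Z W : PowerSeries M) (hA : CL L A Z) (hB : CL L B W) : CL L (A.mul B) (Z * W)
  /-- the germ of the hypersurface `h(x) ∏_t (∑_j y_{t, j} f_{t, j}(x)) ^ a_t = 0`, if the germ of the
  ideal `h ∏_t (f_{t, j})_j ^ a_t` is in the class -/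
  | form (σ τ : Type) [Fintype τ] [DecidableEq τ] [Nonempty τ] (κ : τ → Type)
      [∀ t, Fintype (κ t)] (a : τ → ℕ) (ha : ∀ t, 0 < a t) (h : MvPolynomial σ ℂ)
      (f : (t : τ) → κ t → MvPolynomial σ ℂ) (Z : PowerSeries M) (hA : CL L (genFam a h f) Z) :
      CL L (formFam a h f) (Z * ∏ t, mf L (a t) 1)
  /-- the powers of a principal ideal: the orders are multiplied by `k` -/
  | pow (σ : Type) (g : MvPolynomial σ ℂ) (k : ℕ) (hk : k ≠ 0) (Z : PowerSeries M)
      (hA : CL L ⟨σ, Fin 1, fun _ => g⟩ Z) :
      CL L ⟨σ, Fin 1, fun _ => g ^ k⟩ (PowerSeries.expand k hk Z)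
  /-- the variables and the generators may be indexed differently -/
  | equiv (A B : Fam) (i : A.σ ≃ B.σ) (k : A.ι ≃ B.ι) (h : ∀ j, B.f (k j) = rename i (A.f j))
      (Z : PowerSeries M) (hA : CL L A Z) : CL L B Z

end Pool.Agent.NH52.CI
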