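import Pool.Agent.NH52.CI.Stm2

/-!
# CI-9: the combinatorial identity
-/

set_option autoImplicit false

namespace Pool.Agent.NH52.CI.Com

open Pool.Agent.NH52.CI
open Pool.Agent.W426.SM (gord ford)
open Pool.Agent.W428.MOT (cp free Adm amin wt)

section aux

variable {n r : ℕ} (m : Fin r → Fin n → ℕ)

theorem ext1_last_last : ext1 m (Fin.last r) (Fin.last n) = 1 := by simp [ext1]

theorem ext1_last_cast (i : Fin n) : ext1 m (Fin.last r) i.castSucc = 0 := by simp [ext1]

theorem ext1_cast_last (j : Fin r) : ext1 m j.castSucc (Fin.last n) = 0 := by simp [ext1]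

theorem ext1_cast_cast (j : Fin r) (i : Fin n) : ext1 m j.castSucc i.castSucc = m j i := by
  simp [ext1]

theorem val_last (u : Fin (n + 1) → ℕ) : ∑ i, u i * ext1 m (Fin.last r) i = u (Fin.last n) := by
  rw [Fin.sum_univ_castSucc, ext1_last_last]
  simp [ext1_last_cast]

theorem val_cast (u : Fin (n + 1) → ℕ) (j : Fin r) :
    ∑ i, u i * ext1 m j.castSucc i = ∑ i : Fin n, u i.castSucc * m j i := by
  rw [Fin.sum_univ_castSucc, ext1_cast_last]
  simp [ext1_cast_cast]

theorem gord_le {k : ℕ} (a : Fin k → Fin n → ℕ) (u : Fin n → ℕ) (j : Fin k) :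
    gord a u ≤ ∑ i, u i * a j i := ciInf_le (OrderBot.bddBelow _) j

theorem gord_mem {k : ℕ} [Nonempty (Fin k)] (a : Fin k → Fin n → ℕ) (u : Fin n → ℕ) :
    ∃ j, ∑ i, u i * a j i = gord a u :=
  Nat.sInf_mem (Set.range_nonempty fun j => ∑ i, u i * a j i)

/-- the vectors which occur -/
theorem mem_iff (u : Fin (n + 1) → ℕ) (e : ℕ) :
    (Fin.last r ∈ amin (ext1 m) u ∧ ford 0 (ext1 m) 1 u = e) ↔
      (u (Fin.last n) = e ∧ ∀ j, e ≤ ∑ i : Fin n, u i.castSucc * m j i) := by
  have hf : ford 0 (ext1 m) 1 u = gord (ext1 m) u := by simp [ford]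
  rw [hf]
  unfold amin
  rw [Finset.mem_filter, val_last]
  constructor
  · rintro ⟨⟨-, h1⟩, h2⟩
    refine ⟨h1.trans h2, fun j => ?_⟩
    rw [← h2, ← val_cast]
    exact gord_le _ _ _
  · rintro ⟨h1, h2⟩
    have h3 : gord (ext1 m) u = e := by
      apply le_antisymm
      · exact (gord_le (ext1 m) u (Fin.last r)).trans (((val_last m u).trans h1).le)
      · obtain ⟨j, hj⟩ := gord_mem (ext1 m) u
        rw [← hj]
        induction j using Fin.lastCases with
        | last => rw [val_last]; exact h1.ge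
        | cast j => rw [val_cast]; exact h2 j
    exact ⟨⟨Finset.mem_univ _, h1.trans h3.symm⟩, h3⟩

theorem ford_gord (u : Fin (n + 1) → ℕ) : ford 0 (ext1 m) 1 u = gord (ext1 m) u := by
  simp [ford]

/-- the value of the weight -/
theorem weight {M : Type} [CommRing M] (y : M) (u : Fin (n + 1) → ℕ) (e : ℕ)
    (h : Fin.last r ∈ amin (ext1 m) u ∧ ford 0 (ext1 m) 1 u = e) :
    (1 - y) ^ (n - (free (0 : Fin (n + 1) → ℕ) (ext1 m) Finset.univ (amin (ext1 m) u)).card) *
      ∏ i, (if i ∈ free (0 : Fin (n + 1) → ℕ) (ext1 m) Finset.univ (amin (ext1 m) u) then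
        (if u i ≤ e then (1 - y) * y ^ u i else y ^ (e + 1)) else y ^ u i) =
    y ^ e * ∏ i : Fin n, (if u i.castSucc ≤ e then (1 - y) * y ^ u i.castSucc else y ^ (e + 1)) := by
  classical
  set τ := amin (ext1 m) u with hτ
  have h' := (mem_iff m u e).1 h
  set F := free (0 : Fin (n + 1) → ℕ) (ext1 m) Finset.univ τ with hF
  have hlast : Fin.last n ∉ F := by
    intro hm
    have := (Finset.mem_filter.1 hm).2.2 (Fin.last r) h.1
    rw [ext1_last_last] at this
    exact one_ne_zero this
  have hnf : ∀ i : Fin n, i.castSucc ∉ F → u i.castSucc ≤ e := by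
    intro i hi
    have h1 : ∃ j ∈ τ, ext1 m j i.castSucc ≠ 0 := by
      by_contra hcon
      push Not at hcon
      exact hi (Finset.mem_filter.2 ⟨Finset.mem_univ _, rfl, hcon⟩)
    obtain ⟨j, hj, hj0⟩ := h1
    induction j using Fin.lastCases with
    | last => exact absurd (ext1_last_cast m i) hj0
    | cast j =>
      rw [ext1_cast_cast] at hj0
      have h2 : ∑ i, u i * ext1 m j.castSucc i = gord (ext1 m) u := (Finset.mem_filter.1 hj).2
      rw [val_cast, ← ford_gord, h.2] at h2
      calc u i.castSucc ≤ u i.castSucc * m j i := Nat.le_mul_of_pos_right _ (Nat.pos_of_ne_zero hj0)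
        _ ≤ ∑ i : Fin n, u i.castSucc * m j i :=
            Finset.single_le_sum (f := fun i : Fin n => u i.castSucc * m j i)
              (fun _ _ => Nat.zero_le _) (Finset.mem_univ i)
        _ = e := h2
  have hFm : F = (Finset.univ.filter fun i : Fin n => i.castSucc ∈ F).map Fin.castSuccEmb := by
    ext i
    simp only [Finset.mem_map, Finset.mem_filter, Finset.mem_univ, true_and, Fin.coe_castSuccEmb]
    constructor
    · intro hi
      induction i using Fin.lastCases with
      | last => exact absurd hi hlast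
      | cast i => exact ⟨i, hi, rfl⟩
    · rintro ⟨i, hi, rfl⟩
      exact hi
  have hcard : F.card = (Finset.univ.filter fun i : Fin n => i.castSucc ∈ F).card :=
    (congrArg Finset.card hFm).trans (Finset.card_map _)
  have hpow : (1 - y) ^ (n - F.card) = ∏ i : Fin n, (if i.castSucc ∈ F then 1 else (1 - y)) := by
    rw [Finset.prod_ite, Finset.prod_const_one, one_mul, Finset.prod_const, hcard]
    congr 1
    have h3 := Finset.card_filter_add_card_filter_not (s := (Finset.univ : Finset (Fin n)))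
      (fun i => i.castSucc ∈ F)
    rw [Finset.card_univ, Fintype.card_fin] at h3
    omega
  rw [Fin.prod_univ_castSucc, if_neg hlast, h'.1, hpow, ← mul_assoc, ← Finset.prod_mul_distrib,
    mul_comm]
  congr 1
  refine Finset.prod_congr rfl fun i _ => ?_
  by_cases hi : i.castSucc ∈ F
  · rw [if_pos hi, if_pos hi, one_mul]
  · rw [if_neg hi, if_neg hi, if_pos (hnf i hi)]

end aux

end Pool.Agent.NH52.CI.Com

namespace Pool.Agent.NH52.CI

open Pool.Agent.NH52.CI.Com
open Pool.Agent.W426.SM (gord ford)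
open Pool.Agent.W428.MOT (cp free Adm amin wt)

theorem t_COM : S_COM := by
  classical
  intro M _ L n r m e he
  set y : M := ((L⁻¹ : Mˣ) : M) with hy
  have h1 : ∀ τ : Finset (Fin (r + 1)),
      Polynomial.eval₂ (Int.castRingHom M) y (cp (0 : Fin (n + 1) → ℕ) (ext1 m) 1 Finset.univ τ e e) =
      ∑ u ∈ (Fintype.piFinset fun _ : Fin (n + 1) => Finset.range (e + 2)).filter
        (fun u => Adm Finset.univ u ∧ amin (ext1 m) u = τ ∧ ford 0 (ext1 m) 1 u = e),
        ∏ i, (if i ∈ free (0 : Fin (n + 1) → ℕ) (ext1 m) Finset.univ τ then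
        (if u i ≤ e then (1 - y) * y ^ u i else y ^ (e + 1)) else y ^ u i) := by
    intro τ
    rw [cp, Polynomial.eval₂_finsetSum]
    refine Finset.sum_congr rfl fun u _ => ?_
    rw [wt, Polynomial.eval₂_finsetProd]
    refine Finset.prod_congr rfl fun i _ => ?_
    split_ifs <;> simp
  simp_rw [h1, Finset.mul_sum, Finset.sum_filter]
  have h3 : ∀ (τ : Finset (Fin (r + 1))) (g : (Fin (n + 1) → ℕ) → M),
      (if Fin.last r ∈ τ then ∑ u ∈ (Fintype.piFinset fun _ : Fin (n + 1) => Finset.range (e + 2)),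
        g u else 0) = ∑ u ∈ (Fintype.piFinset fun _ : Fin (n + 1) => Finset.range (e + 2)),
        (if Fin.last r ∈ τ then g u else 0) := by
    intro τ g
    split_ifs
    · rfl
    · simp
  simp_rw [h3]
  rw [Finset.sum_comm]
  have h2 : ∀ u ∈ (Fintype.piFinset fun _ : Fin (n + 1) => Finset.range (e + 2)),
      (∑ τ : Finset (Fin (r + 1)), if Fin.last r ∈ τ then
        (if Adm Finset.univ u ∧ amin (ext1 m) u = τ ∧ ford 0 (ext1 m) 1 u = e then
        (1 - y) ^ (n - (free (0 : Fin (n + 1) → ℕ) (ext1 m) Finset.univ τ).card) *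
        ∏ i, (if i ∈ free (0 : Fin (n + 1) → ℕ) (ext1 m) Finset.univ τ then
        (if u i ≤ e then (1 - y) * y ^ u i else y ^ (e + 1)) else y ^ u i) else 0) else 0) =
      if (∀ i, 1 ≤ u i) ∧ (u (Fin.last n) = e ∧ ∀ j, e ≤ ∑ i : Fin n, u i.castSucc * m j i) then
        y ^ e * ∏ i : Fin n, (if u i.castSucc ≤ e then (1 - y) * y ^ u i.castSucc else y ^ (e + 1))
      else 0 := by
    intro u _
    rw [Finset.sum_eq_single (amin (ext1 m) u)]
    · have hadm : Adm Finset.univ u ↔ ∀ i, 1 ≤ u i := by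
        unfold Adm
        constructor
        · intro h i
          exact Nat.one_le_iff_ne_zero.2 ((h i).2 (Finset.mem_univ i))
        · intro h i
          exact ⟨fun _ => Finset.mem_univ i, fun _ => Nat.one_le_iff_ne_zero.1 (h i)⟩
      by_cases hA : ∀ i, 1 ≤ u i
      · by_cases hB : Fin.last r ∈ amin (ext1 m) u ∧ ford 0 (ext1 m) 1 u = e
        · rw [if_pos hB.1, if_pos ⟨hadm.2 hA, rfl, hB.2⟩, if_pos ⟨hA, (mem_iff m u e).1 hB⟩]
          exact weight m y u e hB
        · rw [if_neg (fun h : _ ∧ _ => hB ((mem_iff m u e).2 h.2))]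
          by_cases hC : Fin.last r ∈ amin (ext1 m) u
          · rw [if_pos hC, if_neg]
            rintro ⟨-, -, h⟩
            exact hB ⟨hC, h⟩
          · rw [if_neg hC]
      · rw [if_neg (fun h : _ ∧ _ => hA h.1)]
        split_ifs with h3 h4
        · exact absurd (hadm.1 h4.1) hA
        · rfl
        · rfl
    · intro τ _ hτ
      split_ifs with h3 h4
      · exact absurd h4.2.1.symm hτ
      · rfl
      · rfl
    · intro h; exact absurd (Finset.mem_univ _) h
  rw [Finset.sum_congr rfl h2, ← Finset.sum_filter, mvol, Finset.mul_sum]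
  refine Finset.sum_bij' (fun u _ => Fin.init u) (fun v _ => Fin.snoc v e) ?_ ?_ ?_ ?_ ?_
  · intro u hu
    obtain ⟨h4, h5, h6, h7⟩ := Finset.mem_filter.1 hu
    refine Finset.mem_filter.2 ⟨Fintype.mem_piFinset.2 fun i => Finset.mem_Icc.2 ⟨h5 _, ?_⟩, h7⟩
    have := Finset.mem_range.1 (Fintype.mem_piFinset.1 h4 i.castSucc)
    show u i.castSucc ≤ e + 1
    omega
  · intro v hv
    obtain ⟨h4, h7⟩ := Finset.mem_filter.1 hv
    have h5 := fun i => Finset.mem_Icc.1 (Fintype.mem_piFinset.1 h4 i)
    refine Finset.mem_filter.2 ⟨Fintype.mem_piFinset.2 fun i => Finset.mem_range.2 ?_, fun i => ?_, ?_, ?_⟩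
    · induction i using Fin.lastCases with
      | last => rw [Fin.snoc_last]; omega
      | cast i => rw [Fin.snoc_castSucc]; have := (h5 i).2; omega
    · induction i using Fin.lastCases with
      | last => rw [Fin.snoc_last]; exact he
      | cast i => rw [Fin.snoc_castSucc]; exact (h5 i).1
    · rw [Fin.snoc_last]
    · intro j
      simp only [Fin.snoc_castSucc]
      exact h7 j
  · intro u hu
    obtain ⟨h4, h5, h6, h7⟩ := Finset.mem_filter.1 hu
    show Fin.snoc (Fin.init u) e = u
    rw [← h6]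
    exact Fin.snoc_init_self u
  · intro v hv
    exact Fin.init_snoc _ _
  · intro u hu
    obtain ⟨h4, h5, h6, h7⟩ := Finset.mem_filter.1 hu
    rw [pow_add y n e, mul_comm (y ^ n) (y ^ e), mul_assoc]
    congr 1
    have h8 : y ^ n = ∏ _i : Fin n, y := by simp
    rw [h8, ← Finset.prod_mul_distrib]
    refine Finset.prod_congr rfl fun i _ => ?_
    show _ = y * (if u i.castSucc ≤ e then (1 - y) * y ^ (u i.castSucc - 1) else y ^ e)
    split_ifs with h9
    · have h10 : u i.castSucc = (u i.castSucc - 1) + 1 := by have := h5 i.castSucc; omega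
      conv_lhs => rw [h10, pow_succ]
      ring
    · rw [pow_succ]; ring

end Pool.Agent.NH52.CI
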