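import Pool.Agent.NH52.CI.Stm2
import Pool.Agent.W29.MTRat
import Pool.Agent.W346.MTCp2
import Pool.Agent.W230.MTZCF

set_option autoImplicit false

/-! # CI-11: the denominators (helper31) -/

namespace Pool.Agent.NH52.CI

open Pool.Agent.W574.SM Pool.Agent.W574.LM Pool.Agent.W574.MO
open Pool.Agent.W426.SM (gord ford IsRay face)
open Pool.Agent.W428.MOT (cp free Adm amin wt)

namespace DenPf

theorem sRAT : Pool.Agent.W428.MOT.S_RAT :=
  Pool.Agent.W29.MTRat.main Pool.Agent.W346.MTCp2.main Pool.Agent.W230.MTZCF.main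

section

variable {M : Type} [CommRing M]

theorem rescale_C' (a c : M) : PowerSeries.rescale a (PowerSeries.C c) = PowerSeries.C c := by
  ext k
  rw [PowerSeries.coeff_rescale, PowerSeries.coeff_C]
  split_ifs with h
  · rw [h, pow_zero, one_mul]
  · rw [mul_zero]

theorem rescale_X' (a : M) :
    PowerSeries.rescale a (PowerSeries.X : PowerSeries M) = PowerSeries.C a * PowerSeries.X := by
  ext k
  rw [PowerSeries.coeff_rescale, PowerSeries.coeff_C_mul, PowerSeries.coeff_X]
  split_ifs with h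
  · rw [h, pow_one]
  · rw [mul_zero, mul_zero]

variable (L : Mˣ)

theorem rescale_poly_mem {K : ℕ → ℕ → Prop} (p : Polynomial M) :
    PowerSeries.rescale (L : M) (p : PowerSeries M) ∈ DenRing L K := by
  induction p using Polynomial.induction_on' with
  | add p q hp hq =>
    rw [Polynomial.coe_add, map_add]
    exact (DenRing L K).add_mem hp hq
  | monomial n c =>
    have h : ((Polynomial.monomial n c : Polynomial M) : PowerSeries M) =
        PowerSeries.C c * PowerSeries.X ^ n := by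
      rw [← Polynomial.C_mul_X_pow_eq_monomial, Polynomial.coe_mul, Polynomial.coe_C,
        Polynomial.coe_pow, Polynomial.coe_X]
    rw [h, map_mul, map_pow, rescale_C', rescale_X']
    exact (DenRing L K).mul_mem (C_mem _)
      ((DenRing L K).pow_mem ((DenRing L K).mul_mem (C_mem _) X_mem) _)

/-- evaluation at `L⁻¹` and substitution of `L T` for `T` -/
noncomputable def phi : PowerSeries (Polynomial ℤ) →+* PowerSeries M :=
  (PowerSeries.rescale (L : M)).comp
    (PowerSeries.map (Polynomial.eval₂RingHom (Int.castRingHom M) ((L⁻¹ : Mˣ) : M)))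

theorem phi_mk (f : ℕ → Polynomial ℤ) : phi L (PowerSeries.mk f) =
    PowerSeries.mk fun e => (L : M) ^ e *
      Polynomial.eval₂ (Int.castRingHom M) ((L⁻¹ : Mˣ) : M) (f e) := by
  ext k
  rw [phi, RingHom.comp_apply, PowerSeries.coeff_rescale, PowerSeries.coeff_map,
    PowerSeries.coeff_mk, PowerSeries.coeff_mk, Polynomial.coe_eval₂RingHom]

theorem phi_poly {K : ℕ → ℕ → Prop} (P : Polynomial (Polynomial ℤ)) :
    phi L (P : PowerSeries (Polynomial ℤ)) ∈ DenRing L K := by
  rw [phi, RingHom.comp_apply, ← Polynomial.polynomial_map_coe]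
  exact rescale_poly_mem L _

theorem phi_fac (s N : ℕ) :
    phi L (1 - PowerSeries.C (Polynomial.X ^ (s + N)) * PowerSeries.X ^ N) = 1 - qq L N s := by
  have hyL : ((L⁻¹ : Mˣ) : M) * L = 1 := Units.inv_mul L
  have h1 : phi L (PowerSeries.C (Polynomial.X ^ (s + N))) =
      PowerSeries.C (((L⁻¹ : Mˣ) : M) ^ (s + N)) := by
    rw [phi, RingHom.comp_apply, PowerSeries.map_C, rescale_C', Polynomial.coe_eval₂RingHom,
      Polynomial.eval₂_pow, Polynomial.eval₂_X]
  have h2 : phi L PowerSeries.X = PowerSeries.C (L : M) * PowerSeries.X := by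
    rw [phi, RingHom.comp_apply, PowerSeries.map_X, rescale_X']
  have h3 : phi L (PowerSeries.X ^ N) = (PowerSeries.C (L : M) * PowerSeries.X) ^ N := by
    rw [map_pow, h2]
  have h4 : ((L⁻¹ : Mˣ) : M) ^ (s + N) * (L : M) ^ N = ((L⁻¹ : Mˣ) : M) ^ s := by
    rw [pow_add, mul_assoc, ← mul_pow, hyL, one_pow, mul_one]
  rw [map_sub, map_one, map_mul, h1, h3, qq, Units.val_pow_eq_pow_val, mul_pow, ← mul_assoc,
    ← map_pow PowerSeries.C (L : M) N, ← map_mul, h4]

end

theorem mem_of_prod {R : Type} [CommRing R] (D : Subring R) {ι : Type} (f : ι → R) :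
    ∀ l : List ι, (∀ a ∈ l, ∃ g ∈ D, f a * g = 1) → ∀ G : R, G * (l.map f).prod ∈ D → G ∈ D := by
  intro l
  induction l with
  | nil =>
    intro _ G h
    rwa [List.map_nil, List.prod_nil, mul_one] at h
  | cons a l ih =>
    intro hl G h
    obtain ⟨g, hg, hfg⟩ := hl a List.mem_cons_self
    refine ih (fun b hb => hl b (List.mem_cons_of_mem _ hb)) G ?_
    have h1 := D.mul_mem h hg
    rw [List.map_cons, List.prod_cons] at h1
    have e : G * (f a * (l.map f).prod) * g = G * (l.map f).prod := by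
      calc _ = G * (l.map f).prod * (f a * g) := by ring
        _ = _ := by rw [hfg, mul_one]
    rwa [e] at h1

/-- the constant terms vanish -/
theorem cp_zero {n r : ℕ} (m : Fin r → Fin n → ℕ) {τ : Finset (Fin (r + 1))}
    (hτ : Fin.last r ∈ τ) : cp (0 : Fin (n + 1) → ℕ) (ext1 m) 1 Finset.univ τ 0 0 = 0 := by
  unfold Pool.Agent.W428.MOT.cp
  refine Finset.sum_eq_zero fun u hu => ?_
  exfalso
  rw [Finset.mem_filter] at hu
  obtain ⟨-, hadm, ham, hford⟩ := hu
  have h1 : gord (ext1 m) u = 0 := by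
    unfold Pool.Agent.W426.SM.ford at hford
    omega
  rw [← ham] at hτ
  unfold Pool.Agent.W428.MOT.amin at hτ
  rw [Finset.mem_filter, h1, Fin.sum_univ_castSucc] at hτ
  have h2 := hτ.2
  simp only [ext1, Fin.snoc_last, Fin.snoc_castSucc, mul_zero, mul_one, Finset.sum_const_zero,
    zero_add] at h2
  exact ((hadm (Fin.last n)).2 (Finset.mem_univ _)) h2

theorem mvol_zero {M : Type} [CommRing M] (L : Mˣ) {n r : ℕ} (m : Fin r → Fin n → ℕ) :
    mvol L m 0 = 1 := by
  unfold mvol
  have h1 : ((Fintype.piFinset fun _ : Fin n => Finset.Icc 1 (0 + 1)).filter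
      (fun u => ∀ j, 0 ≤ ∑ i, u i * m j i)) = {fun _ => 1} := by
    ext u
    rw [Finset.mem_filter, Fintype.mem_piFinset, Finset.mem_singleton]
    constructor
    · rintro ⟨h, -⟩
      funext i
      have := Finset.mem_Icc.1 (h i)
      omega
    · rintro rfl
      exact ⟨fun i => Finset.mem_Icc.2 ⟨le_rfl, le_rfl⟩, fun j => Nat.zero_le _⟩
  rw [h1, Finset.sum_singleton]
  refine Finset.prod_eq_one fun i _ => ?_
  rw [if_neg (by norm_num), pow_zero]

end DenPf

open DenPf

theorem t_DEN (h1 : S_COM) (h2 : S_RAY) : S_DEN := by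
  classical
  intro M _ L n r m hr
  set K : ℕ → ℕ → Prop := fun N k => ∃ a : Fin n → ℕ, IsRay m a ∧ N = gord m a ∧
    k = ∑ i, a i with hK
  have hG : ∀ τ : Finset (Fin (r + 1)), (PowerSeries.mk fun e => (L : M) ^ e *
      Polynomial.eval₂ (Int.castRingHom M) ((L⁻¹ : Mˣ) : M)
        (cp (0 : Fin (n + 1) → ℕ) (ext1 m) 1 Finset.univ τ e e)) ∈ DenRing L K := by
    intro τ
    obtain ⟨l, P, hl, hP⟩ := sRAT (0 : Fin (n + 1) → ℕ) (ext1 m) 1 Finset.univ τ
      (Nat.succ_pos r) one_pos
    have e1 := congrArg (phi L) hP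
    rw [map_mul, phi_mk, map_list_prod, List.map_map] at e1
    refine mem_of_prod (DenRing L K) _ l (fun a ha => ?_) _ (e1 ▸ phi_poly L P)
    obtain ⟨q1, q2, q3, q4⟩ := h2 m hr a (hl a ha).1 (hl a ha).2
    have hS : 1 ≤ ∑ i, Fin.init a i := by
      by_contra h
      refine q1.1 (funext fun i => ?_)
      have h3 : ∑ i, Fin.init a i = 0 := by omega
      exact Finset.sum_eq_zero_iff.1 h3 i (Finset.mem_univ i)
    refine ⟨geo L (gord m (Fin.init a)) (∑ i, Fin.init a i),
      geo_mem q2 hS ⟨Fin.init a, q1, rfl, rfl⟩, ?_⟩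
    have h3 : ∑ i, a i = ∑ i, Fin.init a i + gord m (Fin.init a) := by
      rw [Fin.sum_univ_castSucc, q3]
      rfl
    rw [Function.comp_apply, h3, q4, phi_fac]
    exact geo_mul L q2 _
  have key : PowerSeries.mk (mvol L m) = 1 + PowerSeries.C ((L : M) ^ n) *
      ∑ τ ∈ (Finset.univ : Finset (Finset (Fin (r + 1)))).filter (fun τ => Fin.last r ∈ τ),
        PowerSeries.C ((1 - ((L⁻¹ : Mˣ) : M)) ^
          (n - (free (0 : Fin (n + 1) → ℕ) (ext1 m) Finset.univ τ).card)) *
        (PowerSeries.mk fun e => (L : M) ^ e *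
          Polynomial.eval₂ (Int.castRingHom M) ((L⁻¹ : Mˣ) : M)
            (cp (0 : Fin (n + 1) → ℕ) (ext1 m) 1 Finset.univ τ e e)) := by
    ext e
    rw [PowerSeries.coeff_mk, map_add, PowerSeries.coeff_one, PowerSeries.coeff_C_mul, map_sum]
    simp only [PowerSeries.coeff_C_mul, PowerSeries.coeff_mk]
    rcases Nat.eq_zero_or_pos e with rfl | he
    · rw [if_pos rfl, mvol_zero, Finset.sum_eq_zero, mul_zero, add_zero]
      intro τ hτ
      rw [cp_zero m (Finset.mem_filter.1 hτ).2, Polynomial.eval₂_zero, mul_zero, mul_zero]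
    · rw [if_neg (by omega), zero_add]
      have h3 := h1 L m e he
      have h4 : ∀ τ : Finset (Fin (r + 1)), (1 - ((L⁻¹ : Mˣ) : M)) ^
          (n - (free (0 : Fin (n + 1) → ℕ) (ext1 m) Finset.univ τ).card) *
          ((L : M) ^ e * Polynomial.eval₂ (Int.castRingHom M) ((L⁻¹ : Mˣ) : M)
            (cp (0 : Fin (n + 1) → ℕ) (ext1 m) 1 Finset.univ τ e e)) =
          (L : M) ^ e * ((1 - ((L⁻¹ : Mˣ) : M)) ^
          (n - (free (0 : Fin (n + 1) → ℕ) (ext1 m) Finset.univ τ).card) *
          Polynomial.eval₂ (Int.castRingHom M) ((L⁻¹ : Mˣ) : M)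
            (cp (0 : Fin (n + 1) → ℕ) (ext1 m) 1 Finset.univ τ e e)) := fun τ => by ring
      simp only [h4]
      rw [← Finset.mul_sum, h3, ← mul_assoc, ← mul_assoc, ← pow_add, ← mul_pow, Units.mul_inv,
        one_pow, one_mul]
  rw [key]
  refine (DenRing L K).add_mem (DenRing L K).one_mem ((DenRing L K).mul_mem (C_mem _)
    ((DenRing L K).sum_mem fun τ _ => (DenRing L K).mul_mem (C_mem _) (hG τ)))

end Pool.Agent.NH52.CI
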