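import Pool.Agent.NH52.CI.Stm

/-! # CI-1: zero generators can be dropped -/

set_option autoImplicit false

namespace Pool.Agent.NH52.CI

open MvPolynomial Pool.Agent.W574.SM Pool.Agent.W574.LM

namespace Drop68

variable {σ ι κ : Type} [Fintype ι] [DecidableEq ι] [Fintype κ] [DecidableEq κ]

/-- `applyAt` as an additive map -/
noncomputable def aL (s : ι → ℕ) (g : MvPolynomial σ ℂ) :
    ((ι →₀ ℕ) →₀ weyl σ) →+ MvPolynomial σ ℂ :=
  Finsupp.liftAddHom fun β =>
    { toFun := fun Q => (∏ j, (s j : ℂ) ^ β j) • (Q : Module.End ℂ (MvPolynomial σ ℂ)) g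
      map_zero' := by simp
      map_add' := fun Q Q' => by simp [smul_add] }

omit [DecidableEq ι] in
theorem aL_apply (P : (ι →₀ ℕ) →₀ weyl σ) (s : ι → ℕ) (g : MvPolynomial σ ℂ) :
    applyAt P s g = aL s g P := rfl

omit [DecidableEq ι] in
theorem aL_single (β : ι →₀ ℕ) (Q : weyl σ) (s : ι → ℕ) (g : MvPolynomial σ ℂ) :
    aL s g (Finsupp.single β Q) =
      (∏ j, (s j : ℂ) ^ β j) • (Q : Module.End ℂ (MvPolynomial σ ℂ)) g := by
  unfold aL
  rw [Finsupp.liftAddHom_apply_single]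
  rfl

omit [DecidableEq ι] in
theorem applyAt_zero (P : (ι →₀ ℕ) →₀ weyl σ) (s : ι → ℕ) :
    applyAt P s (0 : MvPolynomial σ ℂ) = 0 := by
  simp [applyAt, Finsupp.sum]

/-- the restriction to the exponents without `κ` -/
noncomputable def res (P : (ι ⊕ κ →₀ ℕ) →₀ weyl σ) : (ι →₀ ℕ) →₀ weyl σ :=
  P.sum fun β Q => if ∀ k : κ, β (Sum.inr k) = 0 then
    Finsupp.single (Finsupp.comapDomain Sum.inl β Sum.inl_injective.injOn) Q else 0

omit [DecidableEq ι] [DecidableEq κ] in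
theorem applyAt_res (P : (ι ⊕ κ →₀ ℕ) →₀ weyl σ) (s : ι → ℕ) (g : MvPolynomial σ ℂ) :
    applyAt (res P) s g = applyAt P (Sum.elim s (fun _ : κ => 0)) g := by
  rw [aL_apply, res, Finsupp.sum, map_sum, applyAt, Finsupp.sum]
  refine Finset.sum_congr rfl fun β _ => ?_
  rw [Fintype.prod_sum_type]
  by_cases h : ∀ k : κ, β (Sum.inr k) = 0
  · rw [if_pos h, aL_single]
    have e : ∏ k : κ, (((Sum.elim s (fun _ : κ => 0) (Sum.inr k) : ℕ)) : ℂ) ^ β (Sum.inr k) = 1 :=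
      Finset.prod_eq_one fun k _ => by rw [h k, pow_zero]
    rw [e, mul_one]
    rfl
  · rw [if_neg h, map_zero]
    push Not at h
    obtain ⟨k, hk⟩ := h
    have e : ∏ k : κ, (((Sum.elim s (fun _ : κ => 0) (Sum.inr k) : ℕ)) : ℂ) ^ β (Sum.inr k) = 0 :=
      Finset.prod_eq_zero (Finset.mem_univ k) (by simp [hk])
    rw [e, mul_zero, zero_smul]

/-- the polynomial to which the operators are applied -/
noncomputable def gt (f : ι → MvPolynomial σ ℂ) (c : ι → ℤ) (s : ι → ℕ) : MvPolynomial σ ℂ :=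
  C ((∏ j, (if c j < 0 then (s j).choose (-c j).toNat else 1) : ℕ) : ℂ) *
    ∏ j, f j ^ ((s j : ℤ) + c j).toNat

omit [DecidableEq ι] [DecidableEq κ] in
theorem gt_zero (f : ι → MvPolynomial σ ℂ) (c : ι ⊕ κ → ℤ) (s : ι → ℕ) (k : κ)
    (hk : c (Sum.inr k) ≠ 0) :
    gt (Sum.elim f (fun _ : κ => (0 : MvPolynomial σ ℂ))) c (Sum.elim s (fun _ : κ => 0)) = 0 := by
  unfold gt
  rcases lt_or_gt_of_ne hk with h | h
  · have e : (∏ j, (if c j < 0 then ((Sum.elim s (fun _ : κ => 0) : ι ⊕ κ → ℕ) j).choose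
        (-c j).toNat else 1) : ℕ) = 0 := by
      refine Finset.prod_eq_zero (Finset.mem_univ (Sum.inr k)) ?_
      rw [if_pos h]
      apply Nat.choose_eq_zero_of_lt
      simp only [Sum.elim_inr]
      omega
    rw [e, Nat.cast_zero, map_zero, zero_mul]
  · have e : ∏ j, (Sum.elim f (fun _ : κ => (0 : MvPolynomial σ ℂ)) : ι ⊕ κ → _) j ^
        ((((Sum.elim s (fun _ : κ => 0) : ι ⊕ κ → ℕ) j : ℕ) : ℤ) + c j).toNat = 0 := by
      refine Finset.prod_eq_zero (Finset.mem_univ (Sum.inr k)) ?_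
      simp only [Sum.elim_inr]
      refine zero_pow ?_
      have : (((0 : ℕ) : ℤ) + c (Sum.inr k)) = c (Sum.inr k) := by simp
      rw [this]
      omega
    rw [e, mul_zero]

omit [DecidableEq ι] [DecidableEq κ] in
theorem gt_inl (f : ι → MvPolynomial σ ℂ) (c : ι ⊕ κ → ℤ) (s : ι → ℕ)
    (hk : ∀ k : κ, c (Sum.inr k) = 0) :
    gt (Sum.elim f (fun _ : κ => (0 : MvPolynomial σ ℂ))) c (Sum.elim s (fun _ : κ => 0)) =
      gt f (c ∘ Sum.inl) s := by
  unfold gt
  rw [Fintype.prod_sum_type, Fintype.prod_sum_type]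
  have e1 : ∏ k : κ, (if c (Sum.inr k) < 0 then
      ((Sum.elim s (fun _ : κ => 0) : ι ⊕ κ → ℕ) (Sum.inr k)).choose
        (-c (Sum.inr k)).toNat else 1) = 1 :=
    Finset.prod_eq_one fun k _ => by simp [hk k]
  have e2 : ∏ k : κ, (Sum.elim f (fun _ : κ => (0 : MvPolynomial σ ℂ)) : ι ⊕ κ → _) (Sum.inr k) ^
        ((((Sum.elim s (fun _ : κ => 0) : ι ⊕ κ → ℕ) (Sum.inr k) : ℕ) : ℤ) +
          c (Sum.inr k)).toNat = 1 :=
    Finset.prod_eq_one fun k _ => by simp [hk k]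
  rw [e1, e2, mul_one, mul_one]
  rfl

end Drop68

open Drop68

theorem t_DROP : S_DROP := by
  classical
  intro σ ι κ _ _ _ _ H f b ⟨S, P, hS, heq⟩
  have hext : ∀ c ∈ S.filter (fun c : ι ⊕ κ → ℤ => ∀ k, c (Sum.inr k) = 0),
      Sum.elim (c ∘ Sum.inl) (fun _ : κ => (0 : ℤ)) = c := by
    intro c hc
    have h := (Finset.mem_filter.1 hc).2
    funext j
    rcases j with j | j
    · rfl
    · exact (h j).symm
  refine ⟨(S.filter (fun c : ι ⊕ κ → ℤ => ∀ k, c (Sum.inr k) = 0)).image (fun c => c ∘ Sum.inl),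
    fun c' => res (P (Sum.elim c' (fun _ : κ => (0 : ℤ)))), ?_, ?_⟩
  · intro c' hc'
    obtain ⟨c, hc, rfl⟩ := Finset.mem_image.1 hc'
    obtain ⟨h1, h2⟩ := Finset.mem_filter.1 hc
    have h3 := hS c h1
    rw [Fintype.sum_sum_type] at h3
    have h4 : ∑ k : κ, c (Sum.inr k) = 0 := Finset.sum_eq_zero fun k _ => h2 k
    rw [h4, add_zero] at h3
    exact h3
  · intro s
    have h := heq (Sum.elim s (fun _ : κ => 0))
    have e1 : (∑ j, (Sum.elim s (fun _ : κ => 0) : ι ⊕ κ → ℕ) j) = ∑ j, s j := by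
      rw [Fintype.sum_sum_type]
      simp
    have e2 : ∏ j, (Sum.elim f (fun _ : κ => (0 : MvPolynomial σ ℂ)) : ι ⊕ κ → _) j ^
        (Sum.elim s (fun _ : κ => 0) : ι ⊕ κ → ℕ) j = ∏ j, f j ^ s j := by
      rw [Fintype.prod_sum_type]
      simp
    rw [e1, e2] at h
    rw [h, Finset.sum_image]
    · rw [← Finset.sum_filter_add_sum_filter_not S (fun c : ι ⊕ κ → ℤ => ∀ k, c (Sum.inr k) = 0)]
      have e3 : ∑ c ∈ S.filter (fun c : ι ⊕ κ → ℤ => ¬ ∀ k, c (Sum.inr k) = 0),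
          applyAt (P c) (Sum.elim s (fun _ : κ => 0))
            (gt (Sum.elim f (fun _ : κ => (0 : MvPolynomial σ ℂ))) c
              (Sum.elim s (fun _ : κ => 0))) = 0 := by
        refine Finset.sum_eq_zero fun c hc => ?_
        have h2 := (Finset.mem_filter.1 hc).2
        push Not at h2
        obtain ⟨k, hk⟩ := h2
        rw [gt_zero f c s k hk, applyAt_zero]
      have e4 : ∀ c ∈ S.filter (fun c : ι ⊕ κ → ℤ => ∀ k, c (Sum.inr k) = 0),
          applyAt (P c) (Sum.elim s (fun _ : κ => 0))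
            (gt (Sum.elim f (fun _ : κ => (0 : MvPolynomial σ ℂ))) c
              (Sum.elim s (fun _ : κ => 0))) =
          applyAt (res (P (Sum.elim (c ∘ Sum.inl) (fun _ : κ => (0 : ℤ))))) s
            (gt f (c ∘ Sum.inl) s) := by
        intro c hc
        rw [hext c hc, applyAt_res, gt_inl f c s (Finset.mem_filter.1 hc).2]
      refine (congrArg₂ (· + ·) (Finset.sum_congr rfl e4) e3).trans ?_
      rw [add_zero]
      rfl
    · intro c hc c' hc' hcc
      rw [← hext c hc, ← hext c' hc']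
      have : c ∘ Sum.inl = c' ∘ Sum.inl := hcc
      rw [this]

end Pool.Agent.NH52.CI
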