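import Pool.Agent.NH52.CI.Stm3

set_option autoImplicit false

/-! # CI-13: the powers of the ideal of a coordinate subspace -/

namespace Pool.Agent.NH52.CI

open MvPolynomial

namespace FatAux

/-- the power of an ideal is spanned by the monomials in the generators -/
theorem pow_le {R ι : Type*} [CommRing R] [Fintype ι] (x : ι → R) (k : ℕ) :
    Ideal.span (Set.range x) ^ k ≤
      Ideal.span {y | ∃ β : ι →₀ ℕ, ∑ i, β i = k ∧ y = ∏ i, x i ^ β i} := by
  classical
  induction k with
  | zero =>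
    rw [pow_zero, Ideal.one_eq_top, top_le_iff, Ideal.eq_top_iff_one]
    refine Ideal.subset_span ⟨0, by simp, by simp⟩
  | succ k ih =>
    rw [pow_succ]
    refine (Ideal.mul_mono_left ih).trans ?_
    rw [Ideal.span_mul_span', Ideal.span_le]
    rintro _ ⟨y, ⟨β, hβ, rfl⟩, _, ⟨t, rfl⟩, rfl⟩
    refine Ideal.subset_span ⟨β + Finsupp.single t 1, ?_, ?_⟩
    · simp only [Finsupp.add_apply, Finset.sum_add_distrib, hβ]
      congr 1
      simp [Finsupp.single_apply]
    · simp only [Finsupp.add_apply, pow_add, Finset.prod_mul_distrib]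
      congr 1
      simp [Finsupp.single_apply]

theorem mem_pow {R ι : Type*} [CommRing R] [Fintype ι] (x : ι → R) {k : ℕ} (β : ι →₀ ℕ)
    (hβ : ∑ i, β i = k) : ∏ i, x i ^ β i ∈ Ideal.span (Set.range x) ^ k := by
  rw [← hβ, ← Finset.prod_pow_eq_pow_sum]
  exact Ideal.prod_mem_prod fun i _ =>
    Ideal.pow_mem_pow (Ideal.subset_span (Set.mem_range_self i)) _

theorem coe_rename_monomial {m n : ℕ} (h : m ≤ n) (β : Fin m →₀ ℕ) :
    ((rename (Fin.castLE h) (monomial β (1 : ℂ)) : MvPolynomial (Fin n) ℂ) :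
      MvPowerSeries (Fin n) ℂ) =
      ∏ i, (MvPowerSeries.X (Fin.castLE h i) : MvPowerSeries (Fin n) ℂ) ^ β i := by
  rw [monomial_eq, C_1, one_mul, Finsupp.prod_fintype _ _ (fun i => pow_zero _), map_prod]
  have h2 : ∀ q : MvPolynomial (Fin n) ℂ, (q : MvPowerSeries (Fin n) ℂ) =
    MvPolynomial.coeToMvPowerSeries.ringHom q := fun q => rfl
  rw [h2, map_prod]
  refine Finset.prod_congr rfl fun i _ => ?_
  rw [map_pow, rename_X, map_pow, ← h2, MvPolynomial.coe_X]

end FatAux

open FatAux in
theorem t_FAT : S_FAT := by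
  classical
  intro c n k hcn hk
  let S : Finset (Fin (c + 1) →₀ ℕ) := Finset.finsuppAntidiag Finset.univ k
  have hS : ∀ β : Fin (c + 1) →₀ ℕ, β ∈ S ↔ ∑ i, β i = k := by
    intro β
    rw [Finset.mem_finsuppAntidiag]
    exact ⟨fun h => h.1, fun h => ⟨h, Finset.subset_univ _⟩⟩
  let g : Fin S.card ≃ S := S.equivFin.symm
  have hs : ∀ t : Fin (c + 1), Finsupp.single t k ∈ S := by
    intro t
    rw [hS]
    simp [Finsupp.single_apply]
  refine ⟨S.card, fun j => monomial (g j).1 1, fun t => g.symm ⟨Finsupp.single t k, hs t⟩,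
    ?_, ?_, ?_, ?_⟩
  · intro j
    refine isHomogeneous_monomial _ ?_
    rw [Finsupp.degree_eq_sum]
    exact (hS _).1 (g j).2
  · intro p hp
    funext t
    have h := hp (g.symm ⟨Finsupp.single t k, hs t⟩)
    simp only [Equiv.apply_symm_apply, eval_monomial, one_mul] at h
    rw [Finsupp.prod_single_index (h := fun n e => p n ^ e) (pow_zero _)] at h
    exact (pow_eq_zero_iff (by omega)).1 h
  · have hM : (Matrix.of fun s t : Fin (c + 1) =>
        pderiv s (monomial (g (g.symm ⟨Finsupp.single t k, hs t⟩)).1 (1 : ℂ))) =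
        Matrix.diagonal fun t : Fin (c + 1) =>
          (monomial (Finsupp.single t k - Finsupp.single t 1) (k : ℂ) :
            MvPolynomial (Fin (c + 1)) ℂ) := by
      ext1 s t
      rw [Matrix.of_apply, Equiv.apply_symm_apply, pderiv_monomial, one_mul]
      by_cases hst : s = t
      · subst hst
        rw [Matrix.diagonal_apply_eq, Finsupp.single_eq_same]
      · rw [Matrix.diagonal_apply_ne _ hst, Finsupp.single_apply, if_neg (Ne.symm hst)]
        simp
    rw [hM, Matrix.det_diagonal]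
    refine Finset.prod_ne_zero_iff.2 fun t _ => ?_
    rw [Ne, monomial_eq_zero]
    exact_mod_cast (by omega : k ≠ 0)
  · apply le_antisymm
    · rw [Ideal.span_le]
      rintro _ ⟨j, rfl⟩
      simp only [SetLike.mem_coe]
      rw [coe_rename_monomial]
      exact mem_pow (fun i : Fin (c + 1) =>
        (MvPowerSeries.X (Fin.castLE hcn i) : MvPowerSeries (Fin n) ℂ)) _ ((hS _).1 (g j).2)
    · refine (pow_le _ k).trans ?_
      rw [Ideal.span_le]
      rintro _ ⟨β, hβ, rfl⟩
      refine Ideal.subset_span ⟨g.symm ⟨β, (hS _).2 hβ⟩, ?_⟩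
      simp only [Equiv.apply_symm_apply]
      rw [coe_rename_monomial]

end Pool.Agent.NH52.CI
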