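import Pool.Agent.NH52.CI.Stm

set_option autoImplicit false

namespace Pool.Agent.NH52.CI

open MvPolynomial

/-- CI-13: the powers of the ideal of a coordinate subspace -/
def S_FAT : Prop :=
  ∀ (c n k : ℕ) (hcn : c + 1 ≤ n), 1 ≤ k →
    ∃ (r : ℕ) (f : Fin r → MvPolynomial (Fin (c + 1)) ℂ) (e : Fin (c + 1) → Fin r),
      (∀ j, (f j).IsHomogeneous k) ∧ (∀ p, (∀ j, eval p (f j) = 0) → p = 0) ∧
      (Matrix.of fun s t => pderiv s (f (e t))).det ≠ 0 ∧
      Ideal.span (Set.range fun j => ((rename (Fin.castLE hcn) (f j) : MvPolynomial (Fin n) ℂ) :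
          MvPowerSeries (Fin n) ℂ)) =
        (Ideal.span (Set.range fun i : Fin (c + 1) =>
          (MvPowerSeries.X (Fin.castLE hcn i) : MvPowerSeries (Fin n) ℂ))) ^ k

end Pool.Agent.NH52.CI
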