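import Pool.Agent.NH52.CI.Main
import Pool.Agent.NH52.CI.Stm3

set_option autoImplicit false
set_option linter.unusedSectionVars false
set_option linter.unusedVariables false

/-! # Cones over fat smooth base schemes -/

namespace Pool.Agent.NH52.CI

open MvPolynomial Pool.Agent.W574.MO Pool.Agent.W574.SM Pool.Agent.W574.LM Pool.Agent.W574.HS
  Pool.Agent.W574.RO Pool.Agent.W574.CN Pool.Agent.Y229 Pool.Agent.R852.TP Pool.Agent.R852.TL
  Pool.Agent.R852.MC
open Pool.Agent.Y229.GL (IsCoord)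

variable {M : Type} [CommRing M] {L : Mˣ}

/-- The ideal `(g_j)` is in the formal coordinates `φ` the `k`-th power of the ideal of the first `c`
coordinates. -/
def IsFat {n r : ℕ} (g : Fin r → MvPolynomial (Fin n) ℂ) (c k : ℕ) : Prop :=
  ∃ (hc : c ≤ n) (φ : Fin n → MvPowerSeries (Fin n) ℂ), IsCoord φ ∧
    (∀ i, MvPowerSeries.constantCoeff (φ i) = 0) ∧
    Ideal.span (Set.range fun j => MvPowerSeries.subst φ (g j : MvPowerSeries (Fin n) ℂ)) =
      (Ideal.span (Set.range fun i : Fin c =>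
        (MvPowerSeries.X (Fin.castLE hc i) : MvPowerSeries (Fin n) ℂ))) ^ k

theorem forced_free {n r : ℕ} (f : Fin r → MvPolynomial (Fin (n + 1)) ℂ) (d : ℕ) (hd : 0 < d)
    (hf : ∀ j, (f j).IsHomogeneous d) (e : Fin (n + 1) → Fin r)
    (he : (Matrix.of fun s t => pderiv s (f (e t))).det ≠ 0) :
    SF f 0 (-((n + 1 : ℕ) : ℂ) / d) := by
  refine sf_of_homog f d hf _ fun b hb => ?_
  have h2 := generic_root f d hd hf b hb e he
  push_cast
  exact h2

/-- the germs of the powers of the ideals of smooth germs -/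
theorem fat_cl (hFAT : S_FAT) {n r : ℕ} (g : Fin r → MvPolynomial (Fin n) ℂ) (c k : ℕ)
    (hk : 1 ≤ k) (hg : IsFat g (c + 1) k) :
    CL L ⟨Fin n, Fin r, g⟩
      (PowerSeries.C (∑ i ∈ Finset.range (c + 1), (L : M) ^ i) * mf L k (c + 1)) ∧
    ∃ (r0 : ℕ) (f : Fin r0 → MvPolynomial (Fin n) ℂ) (φ : Fin n → MvPowerSeries (Fin n) ℂ),
      IsCoord φ ∧ (∀ i, MvPowerSeries.constantCoeff (φ i) = 0) ∧
      Ideal.span (Set.range fun j => (f j : MvPowerSeries (Fin n) ℂ)) =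
        Ideal.span (Set.range fun k => MvPowerSeries.subst φ (g k : MvPowerSeries (Fin n) ℂ)) ∧
      (∃ j, f j ≠ 0) ∧ SF f 0 (-((c + 1 : ℕ) : ℂ) / k) := by
  classical
  obtain ⟨hc, φ, hφ, h0, hspan⟩ := hg
  obtain ⟨r0, f, e, hf, hz, he, hs⟩ := hFAT c n k hc hk
  -- the ideal of the powers
  have h1 : Germ L ⟨Fin (c + 1), Fin r0, f⟩
      (PowerSeries.C (∑ i ∈ Finset.range (c + 1), (L : M) ^ i) * mf L k (c + 1)) :=
    Germ.free c r0 f k hk hf hz e he
  have h2 : Germ L ⟨Fin (n - (c + 1)), Fin 1, fun _ => (1 : MvPolynomial (Fin (n - (c + 1))) ℂ)⟩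
      (1 : PowerSeries M) :=
    Germ.unit _ (inferInstanceAs (Finite (Fin (n - (c + 1))))) (0 : Fin 1) (by
      change constantCoeff (1 : MvPolynomial (Fin (n - (c + 1))) ℂ) ≠ 0
      rw [map_one]
      exact one_ne_zero)
  have h3 := Germ.mul _ _ _ _ h1 h2
  rw [mul_one] at h3
  set iv : Fin (c + 1) ⊕ Fin (n - (c + 1)) ≃ Fin n :=
    finSumFinEquiv.trans (finCongr (by omega)) with hiv
  have hiv1 : ∀ x : Fin (c + 1), iv (Sum.inl x) = Fin.castLE hc x := by
    intro x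
    ext
    simp [hiv]
  have hre : ∀ j, rename (Fin.castLE hc) (f j) = rename iv (rename Sum.inl (f j) *
      rename Sum.inr (1 : MvPolynomial (Fin (n - (c + 1))) ℂ)) := by
    intro j
    rw [map_one, mul_one, rename_rename]
    have : (Fin.castLE hc : Fin (c + 1) → Fin n) = iv ∘ Sum.inl := by
      funext x
      exact (hiv1 x).symm
    rw [this]
  have h4 : Germ L ⟨Fin n, Fin r0, fun j => rename (Fin.castLE hc) (f j)⟩
      (PowerSeries.C (∑ i ∈ Finset.range (c + 1), (L : M) ^ i) * mf L k (c + 1)) := by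
    refine Germ.equiv _ _ iv (Equiv.prodUnique (Fin r0) (Fin 1)) (fun j => ?_) _ h3
    exact hre j.1
  have hsp : Ideal.span (Set.range fun j => ((rename (Fin.castLE hc) (f j) :
        MvPolynomial (Fin n) ℂ) : MvPowerSeries (Fin n) ℂ)) =
      Ideal.span (Set.range fun k => MvPowerSeries.subst φ (g k : MvPowerSeries (Fin n) ℂ)) := by
    rw [hs, hspan]
  refine ⟨CL.iso n r0 r (fun j => rename (Fin.castLE hc) (f j)) g φ hφ h0 hsp _
    (CL.ml _ _ (ML.germ _ _ h4)), r0, fun j => rename (Fin.castLE hc) (f j), φ, hφ, h0, hsp, ?_, ?_⟩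
  · obtain ⟨j, hj⟩ := det_exists f e he
    refine ⟨j, ?_⟩
    rw [Ne, map_eq_zero_iff _ (rename_injective _ (Fin.castLE_injective hc))]
    exact hj
  · have h5 := forced_free f k hk hf e he
    have h6 := sf_mul f (fun _ : Fin 1 => (1 : MvPolynomial (Fin (n - (c + 1))) ℂ)) 0 0 _ h5
      ⟨0, one_ne_zero⟩
    refine sf_equiv iv (Equiv.prodUnique (Fin r0) (Fin 1)) (mulf f
      (fun _ : Fin 1 => (1 : MvPolynomial (Fin (n - (c + 1))) ℂ))) _ (fun j => hre j.1) 0 _ ?_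
    have h3 : (Sum.elim (0 : Fin (c + 1) → ℂ) (0 : Fin (n - (c + 1)) → ℂ)) = (0 : Fin n → ℂ) ∘ iv := by
      funext x
      rcases x with x | x <;> rfl
    rw [h3] at h6
    exact h6

/-- **Cones over fat smooth base schemes.** -/
theorem cone_fat (hDROP : S_DROP) (hADD : S_ADD) (hUNI : S_UNI) (hSTR : S_STR) (hLIN : S_LIN)
    (hFOR : S_FOR) (hALG : S_ALG) (hTRA : S_TRA) (hFAT : S_FAT)
    (n r : ℕ) (f : Fin r → MvPolynomial (Fin (n + 1)) ℂ) (d : ℕ) (hd : 0 < d)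
    (hf : ∀ j, (f j).IsHomogeneous d) (e : Fin (n + 1) → Fin r)
    (he : (Matrix.of fun s t => pderiv s (f (e t))).det ≠ 0)
    (m : ℕ) (i : Fin m → Fin (n + 1)) (p : Fin m → Fin n → ℂ) (c k : Fin m → ℕ)
    (hc : ∀ t, 1 ≤ c t) (hk : ∀ t, 1 ≤ k t)
    (hfat : ∀ t, IsFat (fun j => tr (p t) (deh (i t) (f j))) (c t) (k t)) :
    (∀ b : Polynomial ℂ, IsLocalBI f b → b.eval (-((n + 1 : ℕ) : ℂ) / d) = 0 ∧
      ∀ t, b.eval (-(c t : ℂ) / k t) = 0) ∧
    ∀ (w₀ : M) (w : Fin m → M), w₀ + ∑ t, w t = ∑ k ∈ Finset.range (n + 1), (L : M) ^ k →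
      CL L ⟨Fin (n + 1), Fin r, f⟩ ((PowerSeries.C w₀ + ∑ t, PowerSeries.C (w t) *
        (PowerSeries.C (∑ i ∈ Finset.range (c t), (L : M) ^ i) * mf L (k t) (c t))) *
          mf L d (n + 1)) := by
  classical
  have hc' : ∀ t, c t - 1 + 1 = c t := fun t => by have := hc t; omega
  have hF : ∀ t, _ := fun t => fat_cl (L := L) hFAT (fun j => tr (p t) (deh (i t) (f j)))
    (c t - 1) (k t) (hk t) (by rw [hc' t]; exact hfat t)
  refine ⟨fun b hb => ⟨(forced_free f d hd hf e he).localBI b hb, fun t => ?_⟩,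
    fun w₀ w hw => ?_⟩
  · obtain ⟨-, r0, f0, φ, hφ, h0, hsp, hne, hSF⟩ := hF t
    rw [hc' t] at hSF
    have h1 := sf_iso hDROP hADD hUNI hSTR hLIN hFOR hALG f0 _ φ hφ h0 hsp hne _ hSF
    exact (sf_point hTRA f d hf (i t) (p t) _ h1).localBI b hb
  · refine CL.cone n r f d hd hf e he m i p w₀ w hw _ fun t => ?_
    have h1 := (hF t).1
    rw [hc' t] at h1
    exact h1

end Pool.Agent.NH52.CI
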