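import Pool.Agent.NH52.CI.Stm
import Pool.Agent.Y229.PS.Coord

set_option autoImplicit false
set_option linter.unusedSectionVars false

/-! # `∑ y_j f_j` as a formal power series -/

namespace Pool.Agent.NH52.CI

open MvPolynomial Pool.Agent.W574.SM Pool.Agent.W574.LM Pool.Agent.W574.HS
open Pool.Agent.H628R4.TP (IsLocalBFunction weylS)
open Pool.Agent.Y229.PS (IsFormalBFunction local_of_formal formal_of_local)

namespace For

variable {σ τ : Type}

theorem conj (e : σ ≃ τ) (Q : Module.End ℂ (MvPolynomial τ ℂ)) (hQ : Q ∈ weylS τ) :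
    ∃ R : weylS σ, ∀ p, (R : Module.End ℂ (MvPolynomial σ ℂ)) p =
      rename e.symm (Q (rename e p)) := by
  classical
  have hre : ∀ p : MvPolynomial σ ℂ, rename e.symm (rename e p) = p := fun p => by
    rw [rename_rename]; simp
  have her : ∀ p : MvPolynomial τ ℂ, rename e (rename e.symm p) = p := fun p => by
    rw [rename_rename]; simp
  unfold weylS at hQ
  induction hQ using Algebra.adjoin_induction with
  | mem Q h =>
    rcases h with ⟨i, rfl⟩ | ⟨i, rfl⟩
    · refine ⟨⟨_, Algebra.subset_adjoin (Or.inl ⟨e.symm i, rfl⟩)⟩, fun p => ?_⟩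
      change X (e.symm i) * p = rename e.symm (X i * rename e p)
      rw [map_mul, hre, rename_X]
    · refine ⟨⟨_, Algebra.subset_adjoin (Or.inr ⟨e.symm i, rfl⟩)⟩, fun p => ?_⟩
      change pderiv (e.symm i) p = rename e.symm (pderiv i (rename e p))
      have h1 := pderiv_rename e.injective (e.symm i) p
      rw [Equiv.apply_symm_apply] at h1
      rw [h1, hre]
  | algebraMap r =>
    refine ⟨algebraMap ℂ _ r, fun p => ?_⟩
    change r • p = rename e.symm (r • rename e p)
    rw [map_smul, hre]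
  | add Q Q' _ _ h h' =>
    obtain ⟨R, hR⟩ := h
    obtain ⟨R', hR'⟩ := h'
    refine ⟨R + R', fun p => ?_⟩
    change (R : Module.End ℂ (MvPolynomial σ ℂ)) p + (R' : Module.End ℂ (MvPolynomial σ ℂ)) p = _
    rw [hR, hR', LinearMap.add_apply, map_add]
  | mul Q Q' _ _ h h' =>
    obtain ⟨R, hR⟩ := h
    obtain ⟨R', hR'⟩ := h'
    refine ⟨R * R', fun p => ?_⟩
    change (R : Module.End ℂ (MvPolynomial σ ℂ)) ((R' : Module.End ℂ (MvPolynomial σ ℂ)) p) = _
    rw [hR, hR', her, Module.End.mul_apply]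

theorem ren_symm (e : σ ≃ τ) (p : MvPolynomial σ ℂ) : rename e.symm (rename e p) = p := by
  rw [rename_rename]; simp

theorem localB_equiv (e : σ ≃ τ) (F : MvPolynomial σ ℂ) (b : Polynomial ℂ)
    (h : IsLocalBFunction (rename e F) b) : IsLocalBFunction F b := by
  obtain ⟨L, m, a, Q, hQ⟩ := h
  choose R hR using fun i => conj e (Q i).1 (Q i).2
  have hre : ∀ p : MvPolynomial σ ℂ, rename e.symm (rename e p) = p := fun p => by
    rw [rename_rename]; simp
  refine ⟨L, m, fun i => MvPowerSeries.rename e.symm (a i), R, fun s => ?_⟩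
  have h1 := congrArg (MvPowerSeries.rename e.symm) (hQ s)
  rw [map_mul, MvPowerSeries.rename_C, MvPowerSeries.rename_coe, map_pow, hre, map_sum] at h1
  rw [h1]
  refine Finset.sum_congr rfl fun i _ => ?_
  have h2 : rename e (F ^ (s + 1)) = rename e F ^ (s + 1) := map_pow _ _ _
  rw [map_mul, map_mul, MvPowerSeries.rename_C, MvPowerSeries.rename_coe, hR, h2]

theorem coe_univ {κ : Type} [Fintype κ] [DecidableEq κ] {q n : ℕ} (ek : κ ≃ Fin q)
    (h : κ → MvPolynomial (Fin n) ℂ) :
    ((rename ((Equiv.sumCongr ek (Equiv.refl (Fin n))).trans finSumFinEquiv) (univ h) :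
      MvPolynomial (Fin (q + n)) ℂ) : MvPowerSeries (Fin (q + n)) ℂ) =
      lin fun j => ((h (ek.symm j) : MvPolynomial (Fin n) ℂ) : MvPowerSeries (Fin n) ℂ) := by
  unfold lin univ
  rw [← Equiv.sum_comp ek, map_sum]
  have h0 : ∀ (s : Finset κ) (g : κ → MvPolynomial (Fin (q + n)) ℂ),
      ((∑ j ∈ s, g j : MvPolynomial (Fin (q + n)) ℂ) : MvPowerSeries (Fin (q + n)) ℂ) =
        ∑ j ∈ s, ((g j : MvPolynomial (Fin (q + n)) ℂ) : MvPowerSeries (Fin (q + n)) ℂ) :=
    fun s g => map_sum (MvPolynomial.coeToMvPowerSeries.ringHom) g s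
  rw [h0]
  refine Finset.sum_congr rfl fun j _ => ?_
  simp only [Equiv.symm_apply_apply]
  rw [map_mul, rename_X, rename_rename, MvPowerSeries.rename_coe,
    MvPolynomial.coe_mul, MvPolynomial.coe_X]
  congr 2

end For

theorem t_FOR : S_FOR := by
  intro κ _ _ q n ek h b
  rw [← For.coe_univ ek h]
  constructor
  · intro hb
    refine formal_of_local (For.localB_equiv
      ((Equiv.sumCongr ek (Equiv.refl (Fin n))).trans finSumFinEquiv).symm _ b ?_)
    rw [For.ren_symm]
    exact hb
  · intro hb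
    exact For.localB_equiv _ _ b (local_of_formal hb)

end Pool.Agent.NH52.CI
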