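import Pool.Agent.NH52.CI.Stm
import Pool.Agent.Y229.SP5

set_option autoImplicit false
set_option linter.unusedSectionVars false
set_option linter.unusedVariables false

/-! # Forced roots: formal isomorphisms, translations -/

namespace Pool.Agent.NH52.CI

open MvPolynomial Pool.Agent.W574.MO Pool.Agent.W574.SM Pool.Agent.W574.LM Pool.Agent.W574.HS
  Pool.Agent.W574.RO Pool.Agent.W574.CN Pool.Agent.Y229
open Pool.Agent.H628R4.TP (IsLocalBFunction)
open Pool.Agent.Y229.GL (IsCoord)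
open Pool.Agent.Y229.PS (IsFormalBFunction)

/-- **The equations of formally isomorphic ideals.** -/
theorem locEq_iso (hDROP : S_DROP) (hADD : S_ADD) (hUNI : S_UNI) (hSTR : S_STR) (hLIN : S_LIN)
    (hFOR : S_FOR) (hALG : S_ALG) {n r r' : ℕ} (f : Fin r → MvPolynomial (Fin n) ℂ)
    (g : Fin r' → MvPolynomial (Fin n) ℂ)
    (φ : Fin n → MvPowerSeries (Fin n) ℂ) (hφ : IsCoord φ)
    (h0 : ∀ i, MvPowerSeries.constantCoeff (φ i) = 0)
    (h : Ideal.span (Set.range fun j => (f j : MvPowerSeries (Fin n) ℂ)) =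
        Ideal.span (Set.range fun k => MvPowerSeries.subst φ (g k : MvPowerSeries (Fin n) ℂ)))
    (hf : ∃ j, f j ≠ 0) (H : MvPolynomial (Fin n) ℂ) (b : Polynomial ℂ)
    (hH : constantCoeff H ≠ 0) (hb : IsLocEq H g b) :
    ∃ H' : MvPolynomial (Fin n) ℂ, constantCoeff H' ≠ 0 ∧ IsLocEq H' f b := by
  classical
  have h1 := hADD (κ := Fin r) H g b hb
  have h2 := hUNI H _ b hH h1
  have h3 := (hFOR (finSumFinEquiv (m := r) (n := r')) _ _).1 h2
  obtain ⟨T, hT, hTl⟩ := hALG (fun j => (f j : MvPowerSeries (Fin n) ℂ))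
    (fun k => MvPowerSeries.subst φ (g k : MvPowerSeries (Fin n) ℂ)) h
  set e := finSumFinEquiv (m := r) (n := r') with he
  have h4 := hLIN (Matrix.reindex e e T) (by rwa [Matrix.det_reindex_self]) φ hφ h0 _ _ h3
  have h5 : (fun l => ∑ j, (Matrix.reindex e e T) j l * MvPowerSeries.subst φ
      (((Sum.elim (fun _ : Fin r => (0 : MvPolynomial (Fin n) ℂ)) g) (e.symm j) :
        MvPolynomial (Fin n) ℂ) : MvPowerSeries (Fin n) ℂ)) =
      fun l => (((Sum.elim f (fun _ : Fin r' => (0 : MvPolynomial (Fin n) ℂ))) (e.symm l) :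
        MvPolynomial (Fin n) ℂ) : MvPowerSeries (Fin n) ℂ) := by
    funext l
    have h6 := hTl (e.symm l)
    have h7 : (((Sum.elim f (fun _ : Fin r' => (0 : MvPolynomial (Fin n) ℂ))) (e.symm l) :
        MvPolynomial (Fin n) ℂ) : MvPowerSeries (Fin n) ℂ) =
        (Sum.elim (fun j => (f j : MvPowerSeries (Fin n) ℂ)) 0 : Fin r ⊕ Fin r' → _)
          (e.symm l) := by
      rcases e.symm l with x | x
      · rfl
      · exact MvPolynomial.coe_zero
    rw [h7, h6, ← e.symm.sum_comp]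
    refine Finset.sum_congr rfl fun j _ => ?_
    rw [Matrix.reindex_apply, Matrix.submatrix_apply]
    congr 1
    rcases e.symm j with x | x
    · change MvPowerSeries.subst φ ((0 : MvPolynomial (Fin n) ℂ) : MvPowerSeries (Fin n) ℂ) = 0
      rw [MvPolynomial.coe_zero, ← MvPowerSeries.coe_substAlgHom
        (MvPowerSeries.hasSubst_of_constantCoeff_zero h0), map_zero]
    · rfl
  rw [h5] at h4
  have h6 := (hFOR e _ _).2 h4
  obtain ⟨b', H', hb', hH', hloc⟩ := hSTR _ _ (by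
    obtain ⟨j, hj⟩ := hf
    exact ⟨Sum.inl j, hj⟩) h6
  have hX : (Polynomial.X + 1 : Polynomial ℂ) ≠ 0 := by
    have := Polynomial.X_add_C_ne_zero (1 : ℂ)
    rwa [Polynomial.C_1] at this
  have hbb : b = b' := mul_left_cancel₀ hX hb'
  subst hbb
  exact ⟨H', hH', hDROP H' f b hloc⟩

theorem ne_of_iso {n r r' : ℕ} (f : Fin r → MvPolynomial (Fin n) ℂ)
    (g : Fin r' → MvPolynomial (Fin n) ℂ) (φ : Fin n → MvPowerSeries (Fin n) ℂ)
    (h0 : ∀ i, MvPowerSeries.constantCoeff (φ i) = 0)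
    (h : Ideal.span (Set.range fun j => (f j : MvPowerSeries (Fin n) ℂ)) =
        Ideal.span (Set.range fun k => MvPowerSeries.subst φ (g k : MvPowerSeries (Fin n) ℂ)))
    (hf : ∃ j, f j ≠ 0) : ∃ k, g k ≠ 0 := by
  by_contra hg
  push Not at hg
  obtain ⟨j, hj⟩ := hf
  have h1 : (Set.range fun k => MvPowerSeries.subst φ (g k : MvPowerSeries (Fin n) ℂ)) ⊆ {0} := by
    rintro _ ⟨k, rfl⟩
    change MvPowerSeries.subst φ (g k : MvPowerSeries (Fin n) ℂ) = 0
    rw [hg, MvPolynomial.coe_zero, ← MvPowerSeries.coe_substAlgHom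
      (MvPowerSeries.hasSubst_of_constantCoeff_zero h0), map_zero]
  have h2 : Ideal.span (Set.range fun j => (f j : MvPowerSeries (Fin n) ℂ)) = ⊥ := by
    rw [h, Ideal.span_eq_bot]
    intro x hx
    exact h1 hx
  rw [Ideal.span_eq_bot] at h2
  have h3 : (f j : MvPowerSeries (Fin n) ℂ) = 0 := h2 _ ⟨j, rfl⟩
  apply hj
  exact MvPolynomial.coe_eq_zero_iff.1 h3

/-- **Formal isomorphisms.** -/
theorem sf_iso (hDROP : S_DROP) (hADD : S_ADD) (hUNI : S_UNI) (hSTR : S_STR) (hLIN : S_LIN)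
    (hFOR : S_FOR) (hALG : S_ALG) {n r r' : ℕ} (f : Fin r → MvPolynomial (Fin n) ℂ)
    (g : Fin r' → MvPolynomial (Fin n) ℂ)
    (φ : Fin n → MvPowerSeries (Fin n) ℂ) (hφ : IsCoord φ)
    (h0 : ∀ i, MvPowerSeries.constantCoeff (φ i) = 0)
    (h : Ideal.span (Set.range fun j => (f j : MvPowerSeries (Fin n) ℂ)) =
        Ideal.span (Set.range fun k => MvPowerSeries.subst φ (g k : MvPowerSeries (Fin n) ℂ)))
    (hf : ∃ j, f j ≠ 0) (α : ℂ) (hα : SF f 0 α) : SF g 0 α := by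
  classical
  refine sf_of_local g 0 α (fun H b hb hH => ?_) (exists_fe g (ne_of_iso f g φ h0 h hf))
  rw [MvPolynomial.eval_zero] at hH
  obtain ⟨H', hH', hloc⟩ := locEq_iso hDROP hADD hUNI hSTR hLIN hFOR hALG f g φ hφ h0 h hf H b hH hb
  exact hα.locEq H' b hloc (by rwa [MvPolynomial.eval_zero])

/-- **Points of the projective space.** -/
theorem sf_point (hTRA : S_TRA) {ι : Type} [Fintype ι] [DecidableEq ι] {n : ℕ}
    (f : ι → MvPolynomial (Fin (n + 1)) ℂ) (d : ℕ) (hf : ∀ j, (f j).IsHomogeneous d)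
    (i : Fin (n + 1)) (p : Fin n → ℂ) (α : ℂ)
    (h : SF (fun j => tr p (deh i (f j))) 0 α) : SF f 0 α := by
  refine sf_of_homog f d hf α fun b hb => ?_
  have h1 := hTRA p _ b (functionalEq_deh i f d hf b hb)
  have h2 := h _ ((functionalEq_iff' _ b).1 h1)
  rwa [eval_mapC, eval_C] at h2

end Pool.Agent.NH52.CI
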