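import Pool.Agent.NH52.CI.Stm
import Pool.Agent.Y229.PS.Coord

set_option autoImplicit false

/-! # Formal coordinates and invertible linear substitutions -/

namespace Pool.Agent.NH52.CI

open Pool.Agent.Y229.GL (IsCoord)
open Pool.Agent.Y229.PS (IsFormalBFunction coordB)

namespace Lin

open MvPowerSeries

variable {q n : ℕ}

lemma lin_eq (w : MvPowerSeries (Fin n) ℂ) (j : Fin n) :
    coeff (Finsupp.single j 1) w = constantCoeff (pderiv ℂ j w) := by
  rw [← coeff_zero_eq_constantCoeff_apply, coeff_pderiv]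
  simp

lemma linX (i j : Fin n) : coeff (Finsupp.single j 1) (X i : MvPowerSeries (Fin n) ℂ) =
    if i = j then 1 else 0 := by
  classical
  rw [coeff_X]
  by_cases h : i = j
  · subst h
    simp
  · rw [if_neg h, if_neg]
    intro h2
    exact h (Finsupp.single_left_injective one_ne_zero h2).symm

lemma lin_mulX (w : MvPowerSeries (Fin n) ℂ) (i j : Fin n) :
    coeff (Finsupp.single j 1) (w * X i) = if i = j then constantCoeff w else 0 := by
  rw [lin_eq, Derivation.leibniz, smul_eq_mul, smul_eq_mul, map_add, map_mul, map_mul,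
    constantCoeff_X, zero_mul, add_zero, ← lin_eq, linX]
  split_ifs <;> simp

lemma lin_rename (p : MvPowerSeries (Fin n) ℂ) (i : Fin n) :
    coeff (Finsupp.single (Fin.natAdd q i) 1) (rename (Fin.natAdd q) p) =
      coeff (Finsupp.single i 1) p := by
  have h := coeff_embDomain_rename (⟨Fin.natAdd q, Fin.natAdd_injective _ _⟩ :
    Fin n ↪ Fin (q + n)) p (Finsupp.single i 1)
  rwa [Finsupp.embDomain_single] at h

lemma lin_rename' (p : MvPowerSeries (Fin n) ℂ) (j : Fin q) :
    coeff (Finsupp.single (Fin.castAdd n j) 1) (rename (Fin.natAdd q) p) = 0 := by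
  refine coeff_rename_eq_zero _ _ ?_
  rintro ⟨u, hu⟩
  have h1 := DFunLike.congr_fun hu (Fin.castAdd n j)
  rw [Finsupp.single_eq_same, Finsupp.mapDomain_of_notMem_range _ _ (by
    rintro ⟨i, hi⟩
    have := congrArg Fin.val hi
    simp at this
    omega)] at h1
  exact zero_ne_one h1

/-- the coordinates -/
noncomputable def Psi (T : Matrix (Fin q) (Fin q) (MvPowerSeries (Fin n) ℂ))
    (φ : Fin n → MvPowerSeries (Fin n) ℂ) : Fin (q + n) → MvPowerSeries (Fin (q + n)) ℂ :=
  Fin.append (fun j => ∑ l, rename (Fin.natAdd q) (T j l) * X (Fin.castAdd n l))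
    (fun a => rename (Fin.natAdd q) (φ a))

lemma Psi_left (T : Matrix (Fin q) (Fin q) (MvPowerSeries (Fin n) ℂ))
    (φ : Fin n → MvPowerSeries (Fin n) ℂ) (j : Fin q) : Psi T φ (Fin.castAdd n j) =
      ∑ l, rename (Fin.natAdd q) (T j l) * X (Fin.castAdd n l) := by
  unfold Psi
  rw [Fin.append_left]

lemma Psi_right (T : Matrix (Fin q) (Fin q) (MvPowerSeries (Fin n) ℂ))
    (φ : Fin n → MvPowerSeries (Fin n) ℂ) (a : Fin n) : Psi T φ (Fin.natAdd q a) =
      rename (Fin.natAdd q) (φ a) := by
  unfold Psi
  rw [Fin.append_right]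

lemma Psi_zero (T : Matrix (Fin q) (Fin q) (MvPowerSeries (Fin n) ℂ))
    {φ : Fin n → MvPowerSeries (Fin n) ℂ} (hφ0 : ∀ i, constantCoeff (φ i) = 0) (i) :
    constantCoeff (Psi T φ i) = 0 := by
  refine Fin.addCases (fun i => ?_) (fun i => ?_) i
  · rw [Psi_left, map_sum]
    refine Finset.sum_eq_zero fun l _ => ?_
    rw [map_mul, constantCoeff_X, mul_zero]
  · rw [Psi_right, constantCoeff_rename, hφ0]

lemma Psi_coord {T : Matrix (Fin q) (Fin q) (MvPowerSeries (Fin n) ℂ)} (hT : IsUnit T.det)
    {φ : Fin n → MvPowerSeries (Fin n) ℂ} (hφ : IsCoord φ) : IsCoord (Psi T φ) := by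
  classical
  unfold IsCoord
  intro h0
  obtain ⟨u, hu, hMu⟩ := Matrix.exists_mulVec_eq_zero_iff.2 h0
  have hrow : ∀ i, ∑ j, coeff (Finsupp.single j 1) (Psi T φ i) * u j = 0 := by
    intro i
    have h1 := congrFun hMu i
    rw [Matrix.mulVec, dotProduct] at h1
    simp only [Matrix.of_apply, Pi.zero_apply] at h1
    exact h1
  -- the variables `w`
  have hw : ∀ j : Fin q, u (Fin.castAdd n j) = 0 := by
    by_contra hcon
    push Not at hcon
    obtain ⟨j0, hj0⟩ := hcon
    have hdet : ((constantCoeff (σ := Fin n) (R := ℂ)).mapMatrix T).det ≠ 0 := by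
      rw [← RingHom.map_det]
      exact (hT.map (constantCoeff (σ := Fin n) (R := ℂ))).ne_zero
    apply hdet
    refine Matrix.exists_mulVec_eq_zero_iff.1 ⟨fun i => u (Fin.castAdd n i), ?_, ?_⟩
    · intro h
      exact hj0 (congrFun h j0)
    · funext j
      rw [Matrix.mulVec, dotProduct]
      simp only [RingHom.mapMatrix_apply, Matrix.map_apply, Pi.zero_apply]
      have h1 := hrow (Fin.castAdd n j)
      rw [Fin.sum_univ_add] at h1
      have h2 : ∀ k : Fin (q + n), coeff (Finsupp.single k 1) (Psi T φ (Fin.castAdd n j)) =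
          ∑ l, if Fin.castAdd n l = k then constantCoeff (T j l) else 0 := by
        intro k
        rw [Psi_left, map_sum]
        refine Finset.sum_congr rfl fun l _ => ?_
        rw [lin_mulX, constantCoeff_rename]
      have h3 : ∀ l : Fin q, coeff (Finsupp.single (Fin.castAdd n l) 1)
          (Psi T φ (Fin.castAdd n j)) = constantCoeff (T j l) := by
        intro l
        rw [h2, Finset.sum_eq_single l]
        · rw [if_pos rfl]
        · intro l' _ hl
          rw [if_neg fun h => hl (Fin.castAdd_injective _ _ h)]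
        · intro h
          exact absurd (Finset.mem_univ _) h
      have h4 : ∀ a : Fin n, coeff (Finsupp.single (Fin.natAdd q a) 1)
          (Psi T φ (Fin.castAdd n j)) = 0 := by
        intro a
        rw [h2]
        refine Finset.sum_eq_zero fun l _ => if_neg ?_
        intro h
        have := congrArg Fin.val h
        simp at this
        omega
      simp only [h3, h4, zero_mul, Finset.sum_const_zero, add_zero] at h1
      exact h1
  have hx : ∀ i : Fin n, u (Fin.natAdd q i) = 0 := by
    by_contra hcon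
    push Not at hcon
    obtain ⟨i0, hi0⟩ := hcon
    apply hφ
    refine Matrix.exists_mulVec_eq_zero_iff.1 ⟨fun i => u (Fin.natAdd q i), ?_, ?_⟩
    · intro h
      exact hi0 (congrFun h i0)
    · funext i
      rw [Matrix.mulVec, dotProduct]
      simp only [Matrix.of_apply, Pi.zero_apply]
      have h1 := hrow (Fin.natAdd q i)
      rw [Psi_right, Fin.sum_univ_add] at h1
      simp only [hw, mul_zero, Finset.sum_const_zero, zero_add, lin_rename] at h1
      exact h1
  apply hu
  funext i
  rw [Pi.zero_apply]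
  exact Fin.addCases (fun i => hw i) (fun i => hx i) i

lemma Psi_lin (T : Matrix (Fin q) (Fin q) (MvPowerSeries (Fin n) ℂ))
    {φ : Fin n → MvPowerSeries (Fin n) ℂ} (hφ0 : ∀ i, constantCoeff (φ i) = 0)
    (h : Fin q → MvPowerSeries (Fin n) ℂ) :
    subst (Psi T φ) (lin h) = lin fun l => ∑ j, T j l * subst φ (h j) := by
  have hs := hasSubst_of_constantCoeff_zero (Psi_zero T hφ0)
  have hsφ := hasSubst_of_constantCoeff_zero hφ0
  unfold lin
  rw [← coe_substAlgHom hs, map_sum]
  have h1 : ∀ j : Fin q, substAlgHom hs (X (Fin.castAdd n j) * rename (Fin.natAdd q) (h j) :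
      MvPowerSeries (Fin (q + n)) ℂ) = ∑ l, X (Fin.castAdd n l) *
        rename (Fin.natAdd q) (T j l * subst φ (h j)) := by
    intro j
    rw [map_mul, coe_substAlgHom hs, subst_X hs, Psi_left]
    have h2 : subst (Psi T φ) (rename (Fin.natAdd q) (h j)) =
        rename (Fin.natAdd q) (subst φ (h j) : MvPowerSeries (Fin n) ℂ) := by
      rw [rename_eq_subst, rename_eq_subst, subst_comp_subst_apply (HasSubst.X_comp _) hs,
        subst_comp_subst_apply hsφ (HasSubst.X_comp _)]
      congr 1
      funext i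
      rw [Function.comp_apply, subst_X hs, ← rename_eq_subst, Psi_right]
    rw [h2, Finset.sum_mul]
    refine Finset.sum_congr rfl fun l _ => ?_
    rw [map_mul]
    ring
  rw [Finset.sum_congr rfl fun j _ => h1 j, Finset.sum_comm]
  refine Finset.sum_congr rfl fun l _ => ?_
  rw [map_sum, Finset.mul_sum]

end Lin

open Lin in
/-- **CI-5**: formal coordinates of `x` and invertible linear substitutions of `w` -/
theorem t_LIN : S_LIN := by
  intro q n T hT φ hφ hφ0 h b hb
  rw [← Psi_lin T hφ0 h]
  exact coordB (Psi_coord hT hφ) (Psi_zero T hφ0) hb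

end Pool.Agent.NH52.CI
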