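import Pool.Agent.NH52.CI.Stm2
import Pool.Agent.Y229.SP5

set_option autoImplicit false
set_option linter.unusedSectionVars false
set_option linter.unusedVariables false

/-! # The germs of monomial ideals -/

namespace Pool.Agent.NH52.CI

open MvPolynomial Pool.Agent.W574.MO Pool.Agent.W574.SM Pool.Agent.W574.LM Pool.Agent.W574.HS
  Pool.Agent.W574.RO Pool.Agent.W574.CN Pool.Agent.Y229
open Pool.Agent.W426.SM (gord ford IsRay face)

variable {M : Type} [CommRing M] {L : Mˣ}

theorem mvol_zero {n r : ℕ} (m : Fin r → Fin n → ℕ) : mvol L m 0 = 1 := by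
  classical
  unfold mvol
  rw [Finset.filter_true_of_mem (fun u _ j => Nat.zero_le _)]
  have h1 : (Fintype.piFinset fun _ : Fin n => Finset.Icc 1 (0 + 1)) = {fun _ => 1} := by
    ext u
    rw [Fintype.mem_piFinset, Finset.mem_singleton]
    constructor
    · intro h
      funext i
      have := h i
      rw [Finset.mem_Icc] at this
      omega
    · rintro rfl i
      exact Finset.mem_Icc.2 ⟨le_rfl, le_rfl⟩
  rw [h1, Finset.sum_singleton]
  refine Finset.prod_eq_one fun i _ => ?_
  rw [if_neg (by norm_num), pow_zero]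

theorem tail_mono {n r : ℕ} (m : Fin r → Fin n → ℕ) :
    tail 1 (PowerSeries.mk fun e => mvol L m e - mvol L m (e + 1)) =
      PowerSeries.mk (mvol L m) := by
  ext e
  rw [coeff_tail, PowerSeries.coeff_mk]
  simp only [PowerSeries.coeff_mk]
  rw [Finset.sum_range_sub', mvol_zero]
  ring

theorem mono_ne {n r : ℕ} (m : Fin r → Fin n → ℕ) (j : Fin r) : mono m j ≠ 0 := by
  unfold mono
  exact Finset.prod_ne_zero_iff.2 fun i _ => pow_ne_zero _ (X_ne_zero i)

theorem mono_main (hDEN : S_DEN) (hMRT : S_MRT) {n r : ℕ} (hr : 0 < r)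
    (m : Fin r → Fin n → ℕ) : (∃ j, mono m j ≠ 0) ∧
      tail 1 (PowerSeries.mk fun e => mvol L m e - mvol L m (e + 1)) ∈
        DenRing L (KS (mono m) 0) := by
  have hne : ∃ j, mono m j ≠ 0 := ⟨⟨0, hr⟩, mono_ne m _⟩
  refine ⟨hne, ?_⟩
  rw [tail_mono]
  refine denRing_mono (fun N k hN hk h => ?_) (hDEN L m hr)
  obtain ⟨a, ha, rfl, rfl⟩ := h
  refine sf_of_local _ 0 _ (fun H b hb hH => ?_) (exists_fe _ hne)
  rw [MvPolynomial.eval_zero] at hH
  exact hMRT m a ha hN H b hH hb

end Pool.Agent.NH52.CI
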