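import Pool.Agent.NH52.CI.Stm2

set_option autoImplicit false

/-! # CI-12 MRT (helper59): roots of the local Bernstein-Sato polynomial of a monomial ideal -/

namespace Pool.Agent.NH52.CI

namespace MRTP

open MvPolynomial Pool.Agent.W574.SM Pool.Agent.W574.LM
open Pool.Agent.W426.SM (gord IsRay face)

section weyl

variable {n : ℕ}

/-- exponents -/
noncomputable def ex (z : Fin n → ℤ) : Fin n →₀ ℕ :=
  Finsupp.equivFunOnFinite.symm fun i => (z i).toNat

theorem ex_apply (z : Fin n → ℤ) (i : Fin n) : ex z i = (z i).toNat := rfl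

/-- monomials -/
noncomputable def mon (z : Fin n → ℤ) : MvPolynomial (Fin n) ℂ := monomial (ex z) 1

/-- the operator has a symbol -/
def HasSym (Q : Module.End ℂ (MvPolynomial (Fin n) ℂ)) : Prop :=
  ∃ (T : Type) (_ : Fintype T) (v : T → Fin n → ℤ) (p : T → MvPolynomial (Fin n) ℂ),
    (∀ ν : Fin n → ℤ, (∀ i, 0 ≤ ν i) →
      Q (mon ν) = ∑ t, eval (fun i => (ν i : ℂ)) (p t) • mon (ν + v t)) ∧
    ∀ (t : T) (y : Fin n → ℂ) (i : Fin n) (k : ℤ), 0 ≤ k → y i = k → k + v t i < 0 →
      eval y (p t) = 0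

/-- shift of the variables -/
noncomputable def shift (v : Fin n → ℤ) (q : MvPolynomial (Fin n) ℂ) : MvPolynomial (Fin n) ℂ :=
  aeval (fun i => X i + C ((v i : ℤ) : ℂ)) q

theorem ev {k : ℕ} (y : Fin k → ℂ) (q : MvPolynomial (Fin k) ℂ) :
    eval y q = (aeval y : MvPolynomial (Fin k) ℂ →ₐ[ℂ] ℂ) q := by
  rw [aeval_def, Algebra.algebraMap_self]
  rfl

theorem eval_shift (v : Fin n → ℤ) (q : MvPolynomial (Fin n) ℂ) (y : Fin n → ℂ) :
    eval y (shift v q) = eval (fun i => y i + v i) q := by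
  have h := comp_aeval_apply (R := ℂ) (fun i : Fin n => (X i + C ((v i : ℤ) : ℂ) : MvPolynomial (Fin n) ℂ))
    (aeval y : MvPolynomial (Fin n) ℂ →ₐ[ℂ] ℂ) q
  have h2 : (fun i : Fin n => (aeval y : MvPolynomial (Fin n) ℂ →ₐ[ℂ] ℂ)
      (X i + C ((v i : ℤ) : ℂ))) = fun i => y i + v i := by
    funext i
    rw [map_add, aeval_X, aeval_C]
    rfl
  rw [h2] at h
  rw [ev, ev]
  exact h

theorem hasSym_X (i : Fin n) : HasSym (LinearMap.mulLeft ℂ (X i : MvPolynomial (Fin n) ℂ)) := by
  refine ⟨Unit, inferInstance, fun _ => Pi.single i 1, fun _ => 1, fun ν hν => ?_, ?_⟩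
  · rw [Fintype.sum_unique, map_one, one_smul, LinearMap.mulLeft_apply]
    have h : ex (ν + Pi.single i 1) = Finsupp.single i 1 + ex ν := by
      ext j
      rw [ex_apply, Finsupp.add_apply, ex_apply, Pi.add_apply]
      have := hν j
      by_cases hj : j = i
      · subst hj
        rw [Pi.single_eq_same, Finsupp.single_eq_same]
        omega
      · rw [Pi.single_eq_of_ne hj, Finsupp.single_eq_of_ne hj]
        omega
    rw [mon, mon, h, X, monomial_mul, one_mul]
  · intro t y i' k hk hy hlt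
    exfalso
    have : (0 : ℤ) ≤ (Pi.single i 1 : Fin n → ℤ) i' := by
      by_cases hj : i' = i
      · subst hj
        rw [Pi.single_eq_same]
        exact zero_le_one
      · rw [Pi.single_eq_of_ne hj]
    have h2 : k + (Pi.single i 1 : Fin n → ℤ) i' < 0 := hlt
    omega

theorem hasSym_D (i : Fin n) : HasSym ((pderiv i : Derivation ℂ (MvPolynomial (Fin n) ℂ)
    (MvPolynomial (Fin n) ℂ)) : MvPolynomial (Fin n) ℂ →ₗ[ℂ] MvPolynomial (Fin n) ℂ) := by
  refine ⟨Unit, inferInstance, fun _ => Pi.single i (-1), fun _ => X i, fun ν hν => ?_, ?_⟩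
  · rw [Fintype.sum_unique, eval_X]
    have h : ex (ν + Pi.single i (-1)) = ex ν - Finsupp.single i 1 := by
      ext j
      rw [ex_apply, Finsupp.tsub_apply, ex_apply, Pi.add_apply]
      by_cases hj : j = i
      · subst hj
        rw [Pi.single_eq_same, Finsupp.single_eq_same]
        omega
      · rw [Pi.single_eq_of_ne hj, Finsupp.single_eq_of_ne hj]
        omega
    have h2 : ((ex ν i : ℕ) : ℂ) = (ν i : ℂ) := by
      rw [ex_apply]
      have := Int.toNat_of_nonneg (hν i)
      exact_mod_cast this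
    rw [mon, mon, h]
    change pderiv i (monomial (ex ν) 1) = _
    rw [pderiv_monomial, h2, smul_monomial, smul_eq_mul, mul_comm]
  · intro t y i' k hk hy hlt
    have h2 : k + (Pi.single i (-1) : Fin n → ℤ) i' < 0 := hlt
    by_cases hj : i' = i
    · subst hj
      rw [Pi.single_eq_same] at h2
      have hk0 : k = 0 := by omega
      rw [eval_X, hy, hk0, Int.cast_zero]
    · rw [Pi.single_eq_of_ne hj] at h2
      omega

theorem hasSym_C (c : ℂ) : HasSym (algebraMap ℂ (Module.End ℂ (MvPolynomial (Fin n) ℂ)) c) := by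
  refine ⟨Unit, inferInstance, fun _ => 0, fun _ => C c, fun ν hν => ?_, ?_⟩
  · rw [Fintype.sum_unique, eval_C, add_zero, Module.algebraMap_end_apply]
  · intro t y i' k hk hy hlt
    exfalso
    have h2 : k + 0 < 0 := hlt
    omega

theorem HasSym.add {Q₁ Q₂ : Module.End ℂ (MvPolynomial (Fin n) ℂ)} (h₁ : HasSym Q₁)
    (h₂ : HasSym Q₂) : HasSym (Q₁ + Q₂) := by
  obtain ⟨T₁, i₁, v₁, p₁, a₁, b₁⟩ := h₁
  obtain ⟨T₂, i₂, v₂, p₂, a₂, b₂⟩ := h₂
  refine ⟨T₁ ⊕ T₂, inferInstance, Sum.elim v₁ v₂, Sum.elim p₁ p₂, fun ν hν => ?_, ?_⟩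
  · rw [LinearMap.add_apply, a₁ ν hν, a₂ ν hν, Fintype.sum_sum_type]
    rfl
  · rintro (t | t) y i k hk hy hlt
    · exact b₁ t y i k hk hy hlt
    · exact b₂ t y i k hk hy hlt

theorem HasSym.mul {Q₁ Q₂ : Module.End ℂ (MvPolynomial (Fin n) ℂ)} (h₁ : HasSym Q₁)
    (h₂ : HasSym Q₂) : HasSym (Q₁ * Q₂) := by
  obtain ⟨T₁, i₁, v₁, p₁, a₁, b₁⟩ := h₁
  obtain ⟨T₂, i₂, v₂, p₂, a₂, b₂⟩ := h₂
  refine ⟨T₂ × T₁, inferInstance, fun t => v₂ t.1 + v₁ t.2,
    fun t => p₂ t.1 * shift (v₂ t.1) (p₁ t.2), fun ν hν => ?_, ?_⟩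
  · rw [Module.End.mul_apply, a₂ ν hν, map_sum, Fintype.sum_prod_type]
    refine Finset.sum_congr rfl fun t₂ _ => ?_
    rw [map_smul]
    by_cases h : ∀ i, 0 ≤ (ν + v₂ t₂) i
    · rw [a₁ _ h, Finset.smul_sum]
      refine Finset.sum_congr rfl fun t₁ _ => ?_
      rw [smul_smul, map_mul, eval_shift, add_assoc]
      congr 3
      congr 1
      funext i
      rw [Pi.add_apply, Int.cast_add]
    · push Not at h
      obtain ⟨i, hi⟩ := h
      have h0 : eval (fun i => (ν i : ℂ)) (p₂ t₂) = 0 := b₂ t₂ _ i (ν i) (hν i) rfl hi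
      rw [h0, zero_smul]
      symm
      refine Finset.sum_eq_zero fun t₁ _ => ?_
      rw [map_mul, h0, zero_mul, zero_smul]
  · rintro ⟨t₂, t₁⟩ y i k hk hy hlt
    have hlt' : k + (v₂ t₂ i + v₁ t₁ i) < 0 := hlt
    change eval y (p₂ t₂ * shift (v₂ t₂) (p₁ t₁)) = 0
    rw [map_mul]
    by_cases h : k + v₂ t₂ i < 0
    · rw [b₂ t₂ y i k hk hy h, zero_mul]
    · rw [eval_shift, b₁ t₁ _ i (k + v₂ t₂ i) (not_lt.1 h) ?_ (by omega), mul_zero]
      rw [hy, Int.cast_add]

theorem hasSym (Q : weyl (Fin n)) : HasSym (Q : Module.End ℂ (MvPolynomial (Fin n) ℂ)) := by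
  obtain ⟨Q, hQ⟩ := Q
  change HasSym Q
  refine Algebra.adjoin_induction (p := fun Q _ => HasSym Q) ?_ ?_ ?_ ?_ hQ
  · rintro x (⟨i, rfl⟩ | ⟨i, rfl⟩)
    · exact hasSym_X i
    · exact hasSym_D i
  · exact hasSym_C
  · exact fun x y _ _ hx hy => hx.add hy
  · exact fun x y _ _ hx hy => hx.mul hy

/-- the coefficients of the images of the monomials -/
theorem coeff_sym (Q : weyl (Fin n)) (w : Fin n → ℤ) : ∃ q : MvPolynomial (Fin n) ℂ,
    (∀ ν μ : Fin n → ℤ, (∀ i, 0 ≤ ν i) → (∀ i, 0 ≤ μ i) → (∀ i, ν i = μ i + w i) →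
      coeff (ex μ) ((Q : Module.End ℂ (MvPolynomial (Fin n) ℂ)) (mon ν)) =
        eval (fun i => (ν i : ℂ)) q) ∧
    ∀ (y : Fin n → ℂ) (i : Fin n), y i = w i - 1 → 1 ≤ w i → eval y q = 0 := by
  classical
  obtain ⟨T, _, v, p, h1, h2⟩ := hasSym Q
  refine ⟨∑ t ∈ Finset.univ.filter (fun t => v t = -w), p t, fun ν μ hν hμ hw => ?_,
    fun y i hy hi => ?_⟩
  · rw [h1 ν hν, coeff_sum, map_sum, Finset.sum_filter]
    refine Finset.sum_congr rfl fun t _ => ?_
    rw [coeff_smul, smul_eq_mul, mon, coeff_monomial]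
    split_ifs with h3 h4 h5
    · rw [mul_one]
    · by_cases h6 : ∀ i, 0 ≤ ν i + v t i
      · exfalso
        apply h4
        funext i
        have h7 : ex (ν + v t) i = ex μ i := by rw [h3]
        rw [ex_apply, ex_apply, Pi.add_apply] at h7
        have h8 := h6 i
        have h9 := hμ i
        have h10 := hw i
        rw [Pi.neg_apply]
        omega
      · push Not at h6
        obtain ⟨i, hi⟩ := h6
        rw [h2 t _ i (ν i) (hν i) rfl hi, zero_mul]
    · exfalso
      apply h3
      have : ν + v t = μ := by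
        funext i
        rw [h5, Pi.add_apply, Pi.neg_apply, hw i]
        ring
      rw [this]
    · rw [mul_zero]
  · rw [map_sum]
    refine Finset.sum_eq_zero fun t ht => ?_
    have h3 := (Finset.mem_filter.1 ht).2
    refine h2 t y i (w i - 1) (by omega) ?_ ?_
    · rw [hy]
      push_cast
      rfl
    · rw [h3, Pi.neg_apply]
      omega

end weyl

section polyfun

variable {r n : ℕ}

/-- polynomial functions -/
def PF (g : (Fin r → ℂ) → ℂ) : Prop := ∃ p : MvPolynomial (Fin r) ℂ, ∀ z, eval z p = g z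

theorem PF.const (c : ℂ) : PF (fun _ : Fin r → ℂ => c) := ⟨C c, fun _ => eval_C _⟩

theorem PF.coord (j : Fin r) : PF (fun z : Fin r → ℂ => z j) := ⟨X j, fun _ => eval_X _⟩

theorem PF.add {g h : (Fin r → ℂ) → ℂ} (hg : PF g) (hh : PF h) : PF (fun z => g z + h z) := by
  obtain ⟨p, hp⟩ := hg
  obtain ⟨q, hq⟩ := hh
  exact ⟨p + q, fun z => by rw [map_add, hp, hq]⟩

theorem PF.mul {g h : (Fin r → ℂ) → ℂ} (hg : PF g) (hh : PF h) : PF (fun z => g z * h z) := by
  obtain ⟨p, hp⟩ := hg
  obtain ⟨q, hq⟩ := hh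
  exact ⟨p * q, fun z => by rw [map_mul, hp, hq]⟩

theorem PF.pow {g : (Fin r → ℂ) → ℂ} (hg : PF g) (k : ℕ) : PF (fun z => g z ^ k) := by
  obtain ⟨p, hp⟩ := hg
  exact ⟨p ^ k, fun z => by rw [map_pow, hp]⟩

theorem PF.sum {T : Type} (s : Finset T) {g : T → (Fin r → ℂ) → ℂ} (hg : ∀ t ∈ s, PF (g t)) :
    PF (fun z => ∑ t ∈ s, g t z) := by
  classical
  induction s using Finset.induction_on with
  | empty => exact ⟨0, fun z => by rw [map_zero]; exact Finset.sum_empty.symm⟩
  | insert a s ha ih =>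
    have h := (hg a (Finset.mem_insert_self a s)).add
      (ih fun t ht => hg t (Finset.mem_insert_of_mem ht))
    refine h.imp fun p hp z => ?_
    rw [hp]
    change _ = ∑ t ∈ insert a s, g t z
    rw [Finset.sum_insert ha]

theorem PF.prod {T : Type} (s : Finset T) {g : T → (Fin r → ℂ) → ℂ} (hg : ∀ t ∈ s, PF (g t)) :
    PF (fun z => ∏ t ∈ s, g t z) := by
  classical
  induction s using Finset.induction_on with
  | empty => exact ⟨1, fun z => by rw [map_one]; exact Finset.prod_empty.symm⟩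
  | insert a s ha ih =>
    have h := (hg a (Finset.mem_insert_self a s)).mul
      (ih fun t ht => hg t (Finset.mem_insert_of_mem ht))
    refine h.imp fun p hp z => ?_
    rw [hp]
    change _ = ∏ t ∈ insert a s, g t z
    rw [Finset.prod_insert ha]

theorem PF.poly (h : Polynomial ℂ) {g : (Fin r → ℂ) → ℂ} (hg : PF g) :
    PF (fun z => h.eval (g z)) := by
  obtain ⟨p, hp⟩ := hg
  refine ⟨Polynomial.aeval p h, fun z => ?_⟩
  have h1 := Polynomial.aeval_algHom_apply (aeval z : MvPolynomial (Fin r) ℂ →ₐ[ℂ] ℂ) p h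
  rw [ev, ← h1, ← ev, hp, Polynomial.coe_aeval_eq_eval]

theorem PF.mv (h : MvPolynomial (Fin n) ℂ) {g : Fin n → (Fin r → ℂ) → ℂ} (hg : ∀ i, PF (g i)) :
    PF (fun z => eval (fun i => g i z) h) := by
  choose p hp using hg
  refine ⟨aeval p h, fun z => ?_⟩
  have h1 := comp_aeval_apply (R := ℂ) p (aeval z : MvPolynomial (Fin r) ℂ →ₐ[ℂ] ℂ) h
  have h2 : (fun i => (aeval z : MvPolynomial (Fin r) ℂ →ₐ[ℂ] ℂ) (p i)) = fun i => g i z := by
    funext i
    rw [← ev, hp]
  rw [h2] at h1
  rw [ev, h1, ← ev]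

theorem PF.ext {g h : (Fin r → ℂ) → ℂ} (hg : PF g) (hh : PF h)
    (H : ∀ z : Fin r → ℕ, g (fun j => (z j : ℂ)) = h (fun j => (z j : ℂ))) (z : Fin r → ℂ) :
    g z = h z := by
  obtain ⟨p, hp⟩ := hg
  obtain ⟨q, hq⟩ := hh
  have hpq : p = q := by
    refine funext_set (fun _ => Set.range ((↑) : ℕ → ℂ)) (fun _ =>
      Set.infinite_range_of_injective Nat.cast_injective) fun x hx => ?_
    choose y hy using fun i => hx i (Set.mem_univ i)
    have hxy : x = fun j => (y j : ℂ) := (funext hy).symm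
    rw [hxy, hp, hq, H]
  rw [← hp, ← hq, hpq]

/-- the binomial coefficient is a polynomial -/
noncomputable def chq (k : ℕ) : Polynomial ℂ := Polynomial.C ((k.factorial : ℂ)⁻¹) * descPochhammer ℂ k

theorem chq_eval (k s : ℕ) : (chq k).eval (s : ℂ) = (s.choose k : ℕ) := by
  rw [chq, Polynomial.eval_mul, Polynomial.eval_C, descPochhammer_eval_eq_descFactorial,
    Nat.descFactorial_eq_factorial_mul_choose, Nat.cast_mul, ← mul_assoc, inv_mul_cancel₀, one_mul]
  exact_mod_cast Nat.factorial_ne_zero k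

end polyfun

section star

variable {n r : ℕ}

theorem gord_le (m : Fin r → Fin n → ℕ) (a : Fin n → ℕ) (j : Fin r) :
    gord m a ≤ ∑ i, a i * m j i :=
  ciInf_le ⟨0, by rintro _ ⟨j, rfl⟩; exact Nat.zero_le _⟩ j

theorem exists_face (m : Fin r → Fin n → ℕ) (a : Fin n → ℕ) (hN : 0 < gord m a) :
    ∃ j, face m a j := by
  have hne : Nonempty (Fin r) := by
    by_contra h
    rw [not_nonempty_iff] at h
    have : gord m a = 0 := by
      rw [gord, iInf_of_isEmpty]
      exact Nat.sInf_empty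
    omega
  have h1 : gord m a ∈ Set.range fun j => ∑ i, a i * m j i := Nat.sInf_mem (Set.range_nonempty _)
  obtain ⟨j, hj⟩ := h1
  exact ⟨j, hj⟩

/-- the point `s*` -/
theorem exists_star (m : Fin r → Fin n → ℕ) (a : Fin n → ℕ) (hray : IsRay m a)
    (hN : 0 < gord m a) : ∃ c : Fin r → ℂ, (∀ j, ¬ face m a j → c j = 0) ∧
      ∀ i, a i ≠ 0 → ∑ j, c j * (m j i : ℂ) = -1 := by
  classical
  let w : Fin r → Fin n → ℚ := fun j i => if a i = 0 then 0 else (m j i : ℚ)
  let t : Fin n → ℚ := fun i => if a i = 0 then 0 else -1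
  let F : Finset (Fin r) := Finset.univ.filter fun j => face m a j
  have ht : t ∈ Submodule.span ℚ (w '' (F : Set (Fin r))) := by
    by_contra hcon
    obtain ⟨f, hf1, hf2⟩ := Submodule.exists_le_ker_of_notMem hcon
    have hf : ∀ x : Fin n → ℚ, f x = ∑ i, x i * f (Pi.single i 1) := by
      intro x
      conv_lhs => rw [pi_eq_sum_univ' x, map_sum]
      refine Finset.sum_congr rfl fun i _ => ?_
      rw [map_smul, smul_eq_mul]
    let u : Fin n → ℚ := fun i => if a i = 0 then 0 else f (Pi.single i 1)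
    have hu : ∀ j, face m a j → ∑ i, u i * m j i = 0 := by
      intro j hj
      have h1 : f (w j) = 0 := hf2 (Submodule.subset_span ⟨j, by simp [F, hj], rfl⟩)
      rw [hf] at h1
      rw [← h1]
      refine Finset.sum_congr rfl fun i _ => ?_
      change (if a i = 0 then (0 : ℚ) else f (Pi.single i 1)) * _ =
        (if a i = 0 then (0 : ℚ) else (m j i : ℚ)) * _
      split_ifs
      · rw [zero_mul, zero_mul]
      · ring
    obtain ⟨ρ, hρ⟩ := hray.2 u (fun i hi => if_pos hi) (fun j j' hj hj' => by rw [hu j hj, hu j' hj'])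
    obtain ⟨j, hj⟩ := exists_face m a hN
    have h2 := hu j hj
    have h3 : ρ * (gord m a : ℕ) = 0 := by
      rw [← h2]
      have h4 : ((gord m a : ℕ) : ℚ) = ∑ i, (a i : ℚ) * m j i := by
        rw [← hj]
        push_cast
        rfl
      rw [h4, Finset.mul_sum]
      refine Finset.sum_congr rfl fun i _ => ?_
      rw [hρ]
      ring
    have h4 : ρ = 0 := by
      rcases mul_eq_zero.1 h3 with h | h
      · exact h
      · exfalso
        have : gord m a = 0 := by exact_mod_cast h
        omega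
    apply hf1
    rw [hf]
    refine Finset.sum_eq_zero fun i _ => ?_
    have h5 : u i = 0 := by rw [hρ, h4, zero_mul]
    change (if a i = 0 then (0 : ℚ) else -1) * _ = 0
    by_cases hi : a i = 0
    · rw [if_pos hi, zero_mul]
    · have h6 : u i = f (Pi.single i 1) := if_neg hi
      rw [← h6, h5, mul_zero]
  rw [Submodule.mem_span_image_finset_iff_exists_fun'] at ht
  obtain ⟨c, hc⟩ := ht
  refine ⟨fun j => if face m a j then ((c j : ℚ) : ℂ) else 0, fun j hj => if_neg hj, fun i hi => ?_⟩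
  have h1 := congrFun hc i
  rw [Finset.sum_apply] at h1
  have h2 : ∑ j ∈ F, c j * (m j i : ℚ) = -1 := by
    have h3 : t i = -1 := if_neg hi
    rw [← h3, ← h1]
    refine Finset.sum_congr rfl fun j _ => ?_
    change _ = c j * (if a i = 0 then (0 : ℚ) else (m j i : ℚ))
    rw [if_neg hi]
  have h3 : ((∑ j ∈ F, c j * (m j i : ℚ) : ℚ) : ℂ) = -1 := by
    rw [h2]
    norm_num
  rw [← h3, Finset.sum_filter]
  push_cast
  refine Finset.sum_congr rfl fun j _ => ?_
  split_ifs
  · norm_num
  · norm_num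

/-- the monomials -/
theorem mon_eq (z : Fin n → ℤ) : mon z = ∏ i, (X i : MvPolynomial (Fin n) ℂ) ^ (z i).toNat := by
  rw [mon, monomial_eq, C_1, one_mul, Finsupp.prod_fintype _ _ (fun i => pow_zero _)]
  rfl

theorem prod_mono (m : Fin r → Fin n → ℕ) (e : Fin r → ℕ) :
    ∏ j, mono m j ^ e j = mon (fun i => ∑ j, (e j : ℤ) * (m j i : ℤ)) := by
  rw [mon_eq]
  have h1 : ∀ j, mono m j ^ e j = ∏ i, (X i : MvPolynomial (Fin n) ℂ) ^ (m j i * e j) := by
    intro j
    rw [mono, ← Finset.prod_pow]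
    exact Finset.prod_congr rfl fun i _ => (pow_mul _ _ _).symm
  rw [Finset.prod_congr rfl fun j _ => h1 j, Finset.prod_comm]
  refine Finset.prod_congr rfl fun i _ => ?_
  rw [Finset.prod_pow_eq_pow_sum]
  congr 1
  have h2 : (∑ j, (e j : ℤ) * (m j i : ℤ)) = ((∑ j, m j i * e j : ℕ) : ℤ) := by
    push_cast
    exact Finset.sum_congr rfl fun j _ => mul_comm _ _
  rw [h2, Int.toNat_natCast]

end star

end MRTP

open MRTP MvPolynomial Pool.Agent.W574.SM Pool.Agent.W574.LM in
open Pool.Agent.W426.SM (gord IsRay face) in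
theorem t_MRT : S_MRT := by
  intro n r m a hray hN H b hH hloc
  classical
  obtain ⟨S, P, hS, hE⟩ := hloc
  obtain ⟨st, hst0, hst⟩ := exists_star m a hray hN
  -- the shifts
  let w : (Fin r → ℤ) → Fin n → ℤ := fun c i => ∑ j, c j * (m j i : ℤ)
  choose q hq1 hq2 using fun (c : Fin r → ℤ) (β : Fin r →₀ ℕ) => coeff_sym ((P c) β) (w c)
  let S' : Finset (Fin r → ℤ) := S.filter fun c => ∀ j, ¬ face m a j → 0 ≤ c j
  let χ : (Fin r → ℂ) → Fin r → ℂ := fun z j => if face m a j then z j else 0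
  let g1 : (Fin r → ℂ) → ℂ := fun z => constantCoeff H * b.eval (∑ j, χ z j)
  let g2 : (Fin r → ℂ) → ℂ := fun z => ∑ c ∈ S', ∑ β ∈ (P c).support,
    ((∏ j, χ z j ^ β j) * ∏ j, (if c j < 0 then (chq (-c j).toNat).eval (χ z j) else 1)) *
      eval (fun i => (∑ j, χ z j * (m j i : ℂ)) + (w c i : ℂ)) (q c β)
  have hχ : ∀ j, PF (fun z => χ z j) := by
    intro j
    by_cases hj : face m a j
    · have : (fun z => χ z j) = fun z => z j := by
        funext z
        exact if_pos hj
      rw [this]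
      exact PF.coord j
    · have : (fun z => χ z j) = fun _ => 0 := by
        funext z
        exact if_neg hj
      rw [this]
      exact PF.const 0
  have hg1 : PF g1 := (PF.const (constantCoeff H)).mul (PF.poly b (PF.sum _ fun j _ => hχ j))
  have hg2 : PF g2 := by
    refine PF.sum _ fun c _ => PF.sum _ fun β _ => ?_
    refine PF.mul (PF.mul (PF.prod _ fun j _ => (hχ j).pow _) (PF.prod _ fun j _ => ?_)) ?_
    · by_cases hc : c j < 0
      · have h := PF.poly (chq (-c j).toNat) (hχ j)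
        have h2 : (fun z => if c j < 0 then (chq (-c j).toNat).eval (χ z j) else 1) =
            fun z => (chq (-c j).toNat).eval (χ z j) := by
          funext z
          exact if_pos hc
        rw [h2]
        exact h
      · have h2 : (fun z => if c j < 0 then (chq (-c j).toNat).eval (χ z j) else 1) =
            fun _ => 1 := by
          funext z
          exact if_neg hc
        rw [h2]
        exact PF.const 1
    · exact PF.mv (q c β) (g := fun i z => (∑ j, χ z j * (m j i : ℂ)) + (w c i : ℂ))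
        fun i => (PF.sum _ fun j _ => (hχ j).mul (PF.const _)).add (PF.const _)
  have hnat : ∀ z : Fin r → ℕ, g1 (fun j => (z j : ℂ)) = g2 (fun j => (z j : ℂ)) := by
    intro z
    let s : Fin r → ℕ := fun j => if face m a j then z j else 0
    have hs : ∀ j, χ (fun j => (z j : ℂ)) j = (s j : ℂ) := by
      intro j
      change (if face m a j then (z j : ℂ) else 0) = ((if face m a j then z j else 0 : ℕ) : ℂ)
      split_ifs
      · rfl
      · rw [Nat.cast_zero]
    let μ : Fin n → ℤ := fun i => ∑ j, (s j : ℤ) * (m j i : ℤ)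
    have hμ : ∀ i, 0 ≤ μ i := fun i => Finset.sum_nonneg fun j _ => by positivity
    have hcoef := congrArg (coeff (ex μ)) (hE s)
    have hL : coeff (ex μ) (H * (C (b.eval ((∑ j, s j : ℕ) : ℂ)) * ∏ j, mono m j ^ s j)) =
        g1 (fun j => (z j : ℂ)) := by
      rw [prod_mono]
      change coeff (ex μ) (H * (C _ * monomial (ex μ) 1)) = _
      rw [C_mul_monomial, mul_one]
      have h0 := coeff_mul_monomial (0 : Fin n →₀ ℕ) (ex μ) (b.eval ((∑ j, s j : ℕ) : ℂ)) H
      rw [zero_add] at h0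
      rw [h0]
      change coeff 0 H * _ = constantCoeff H * b.eval (∑ j, χ (fun j => (z j : ℂ)) j)
      rw [constantCoeff_eq, Finset.sum_congr rfl fun j _ => hs j]
      push_cast
      rfl
    rw [hL] at hcoef
    rw [hcoef, coeff_sum]
    change _ = ∑ c ∈ S', _
    rw [Finset.sum_filter]
    refine Finset.sum_congr rfl fun c _ => ?_
    have hK : ∏ j, (if c j < 0 then (chq (-c j).toNat).eval (χ (fun j => (z j : ℂ)) j) else 1) =
        ((∏ j, (if c j < 0 then (s j).choose (-c j).toNat else 1) : ℕ) : ℂ) := by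
      rw [Nat.cast_prod]
      refine Finset.prod_congr rfl fun j _ => ?_
      split_ifs
      · rw [hs, chq_eval]
      · rw [Nat.cast_one]
    have hA : ∀ G : MvPolynomial (Fin n) ℂ, coeff (ex μ) (applyAt (P c) s G) =
        ∑ β ∈ (P c).support, (∏ j, (s j : ℂ) ^ β j) *
          coeff (ex μ) (((P c β : weyl (Fin n)) : Module.End ℂ (MvPolynomial (Fin n) ℂ)) G) := by
      intro G
      rw [applyAt, Finsupp.sum, coeff_sum]
      refine Finset.sum_congr rfl fun β _ => ?_
      rw [coeff_smul, smul_eq_mul]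
    rw [hA]
    by_cases hK0 : (∏ j, (if c j < 0 then (s j).choose (-c j).toNat else 1) : ℕ) = 0
    · have h0 : ∑ β ∈ (P c).support, (∏ j, (s j : ℂ) ^ β j) *
          coeff (ex μ) (((P c β : weyl (Fin n)) : Module.End ℂ (MvPolynomial (Fin n) ℂ))
            (C ((∏ j, (if c j < 0 then (s j).choose (-c j).toNat else 1) : ℕ) : ℂ) *
              ∏ j, mono m j ^ ((s j : ℤ) + c j).toNat)) = 0 := by
        refine Finset.sum_eq_zero fun β _ => ?_
        rw [hK0, Nat.cast_zero, C_0, zero_mul, map_zero, coeff_zero, mul_zero]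
      rw [h0]
      split_ifs
      · symm
        refine Finset.sum_eq_zero fun β _ => ?_
        rw [hK, hK0, Nat.cast_zero, mul_zero, zero_mul]
      · rfl
    · have hne : ∀ j, (if c j < 0 then (s j).choose (-c j).toNat else 1) ≠ 0 := fun j =>
        (Finset.prod_ne_zero_iff.1 hK0) j (Finset.mem_univ j)
      have hpos : ∀ j, 0 ≤ (s j : ℤ) + c j := by
        intro j
        by_cases hc : c j < 0
        · have h1 := hne j
          rw [if_pos hc] at h1
          have h2 : (-c j).toNat ≤ s j := by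
            by_contra h3
            exact h1 (Nat.choose_eq_zero_of_lt (not_le.1 h3))
          omega
        · omega
      have hgood : ∀ j, ¬ face m a j → 0 ≤ c j := by
        intro j hj
        have h1 : s j = 0 := if_neg hj
        have h2 := hpos j
        rw [h1] at h2
        simpa using h2
      rw [if_pos hgood]
      refine Finset.sum_congr rfl fun β _ => ?_
      have hν : ∀ i, (∑ j, ((((s j : ℤ) + c j).toNat : ℕ) : ℤ) * (m j i : ℤ)) = μ i + w c i := by
        intro i
        change _ = ∑ j, (s j : ℤ) * (m j i : ℤ) + ∑ j, c j * (m j i : ℤ)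
        rw [← Finset.sum_add_distrib]
        refine Finset.sum_congr rfl fun j _ => ?_
        rw [Int.toNat_of_nonneg (hpos j)]
        ring
      rw [prod_mono, C_mul', map_smul, coeff_smul, smul_eq_mul,
        hq1 c β _ μ (fun i => Finset.sum_nonneg fun j _ => by positivity) hμ hν, hK, mul_assoc]
      congr 1
      · exact Finset.prod_congr rfl fun j _ => by rw [hs]
      · congr 2
        congr 1
        funext i
        rw [hν i]
        change ((∑ j, (s j : ℤ) * (m j i : ℤ) + w c i : ℤ) : ℂ) = _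
        push_cast
        congr 1
        exact Finset.sum_congr rfl fun j _ => by rw [hs]
  have hχst : ∀ j, χ st j = st j := by
    intro j
    change (if face m a j then st j else 0) = st j
    split_ifs with h
    · rfl
    · rw [hst0 j h]
  have h2 : g2 st = 0 := by
    refine Finset.sum_eq_zero fun c hc => Finset.sum_eq_zero fun β _ => ?_
    obtain ⟨hcS, hgood⟩ := Finset.mem_filter.1 hc
    have hex : ∃ i, a i ≠ 0 ∧ 1 ≤ w c i := by
      by_contra hcon
      push Not at hcon
      have h3 : ∑ i, (a i : ℤ) * w c i ≤ 0 := by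
        refine Finset.sum_nonpos fun i _ => ?_
        by_cases hi : a i = 0
        · rw [hi, Nat.cast_zero, zero_mul]
        · have := hcon i hi
          exact mul_nonpos_of_nonneg_of_nonpos (Int.natCast_nonneg _) (by omega)
      have h4 : ∑ i, (a i : ℤ) * w c i = ∑ j, c j * ((∑ i, a i * m j i : ℕ) : ℤ) := by
        change ∑ i, (a i : ℤ) * ∑ j, c j * (m j i : ℤ) = _
        simp_rw [Finset.mul_sum]
        rw [Finset.sum_comm]
        refine Finset.sum_congr rfl fun j _ => ?_
        push_cast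
        rw [Finset.mul_sum]
        exact Finset.sum_congr rfl fun i _ => by ring
      have h5 : ∑ j, c j * (gord m a : ℤ) ≤ ∑ j, c j * ((∑ i, a i * m j i : ℕ) : ℤ) := by
        refine Finset.sum_le_sum fun j _ => ?_
        by_cases hj : face m a j
        · have h6 : (∑ i, a i * m j i) = gord m a := hj
          rw [h6]
        · exact mul_le_mul_of_nonneg_left (by exact_mod_cast gord_le m a j) (hgood j hj)
      rw [← Finset.sum_mul, hS c hcS, one_mul] at h5
      omega
    obtain ⟨i, hi, hwi⟩ := hex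
    have h3 : eval (fun i => (∑ j, χ st j * (m j i : ℂ)) + (w c i : ℂ)) (q c β) = 0 := by
      refine hq2 c β _ i ?_ hwi
      rw [Finset.sum_congr rfl fun j _ => by rw [hχst j], hst i hi]
      ring
    rw [h3, mul_zero]
  have h1 : g1 st = 0 := (PF.ext hg1 hg2 hnat st).trans h2
  have h3 : constantCoeff H * b.eval (∑ j, st j) = 0 := by
    rw [← h1]
    change _ = constantCoeff H * b.eval (∑ j, χ st j)
    rw [Finset.sum_congr rfl fun j _ => hχst j]
  have h4 := (mul_eq_zero.1 h3).resolve_left hH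
  have hN0 : ((gord m a : ℕ) : ℂ) ≠ 0 := by exact_mod_cast hN.ne'
  have h5 : ∑ j, st j = -((∑ i, a i : ℕ) : ℂ) / (gord m a : ℕ) := by
    rw [eq_div_iff hN0, Finset.sum_mul]
    have h6 : ∀ j, st j * ((gord m a : ℕ) : ℂ) = ∑ i, (a i : ℂ) * (st j * (m j i : ℂ)) := by
      intro j
      by_cases hj : face m a j
      · have h7 : (∑ i, a i * m j i) = gord m a := hj
        rw [← h7]
        push_cast
        rw [Finset.mul_sum]
        exact Finset.sum_congr rfl fun i _ => by ring
      · rw [hst0 j hj, zero_mul]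
        symm
        exact Finset.sum_eq_zero fun i _ => by ring
    rw [Finset.sum_congr rfl fun j _ => h6 j, Finset.sum_comm]
    push_cast
    rw [← Finset.sum_neg_distrib]
    refine Finset.sum_congr rfl fun i _ => ?_
    rw [← Finset.mul_sum]
    by_cases hi : a i = 0
    · rw [hi]
      push_cast
      ring
    · rw [hst i hi]
      ring
  rw [← h5]
  exact h4

end Pool.Agent.NH52.CI
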