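import Pool.Agent.NH52.CI.Stm2

set_option autoImplicit false

/-! # The rays of the normal fan of the ideal `(x ^ (m_j)) + (z)` -/

namespace Pool.Agent.NH52.CI

namespace RAY

open Pool.Agent.W426.SM (gord ford IsRay face)

variable {n r : ℕ}

lemma e_cc (m : Fin r → Fin n → ℕ) (j : Fin r) (i : Fin n) :
    ext1 m j.castSucc i.castSucc = m j i := by
  unfold ext1
  rw [Fin.snoc_castSucc (α := fun _ => Fin (n + 1) → ℕ), Fin.snoc_castSucc (α := fun _ => ℕ)]

lemma e_cl (m : Fin r → Fin n → ℕ) (j : Fin r) : ext1 m j.castSucc (Fin.last n) = 0 := by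
  unfold ext1
  rw [Fin.snoc_castSucc (α := fun _ => Fin (n + 1) → ℕ), Fin.snoc_last (α := fun _ => ℕ)]

lemma e_lc (m : Fin r → Fin n → ℕ) (i : Fin n) : ext1 m (Fin.last r) i.castSucc = 0 := by
  unfold ext1
  rw [Fin.snoc_last (α := fun _ => Fin (n + 1) → ℕ), Fin.snoc_castSucc (α := fun _ => ℕ)]

lemma e_ll (m : Fin r → Fin n → ℕ) : ext1 m (Fin.last r) (Fin.last n) = 1 := by
  unfold ext1
  rw [Fin.snoc_last (α := fun _ => Fin (n + 1) → ℕ), Fin.snoc_last (α := fun _ => ℕ)]

lemma sum_c (m : Fin r → Fin n → ℕ) (b : Fin (n + 1) → ℕ) (j : Fin r) :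
    ∑ i, b i * ext1 m j.castSucc i = ∑ i : Fin n, Fin.init b i * m j i := by
  rw [Fin.sum_univ_castSucc, e_cl, mul_zero, add_zero]
  refine Finset.sum_congr rfl fun i _ => ?_
  rw [e_cc]
  rfl

lemma sum_l (m : Fin r → Fin n → ℕ) (b : Fin (n + 1) → ℕ) :
    ∑ i, b i * ext1 m (Fin.last r) i = b (Fin.last n) := by
  rw [Fin.sum_univ_castSucc, e_ll, mul_one]
  rw [Finset.sum_eq_zero, zero_add]
  intro i _
  rw [e_lc, mul_zero]

lemma sumQ_c (m : Fin r → Fin n → ℕ) (b : Fin (n + 1) → ℚ) (j : Fin r) :
    ∑ i, b i * (ext1 m j.castSucc i : ℚ) = ∑ i : Fin n, b i.castSucc * (m j i : ℚ) := by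
  rw [Fin.sum_univ_castSucc, e_cl, Nat.cast_zero, mul_zero, add_zero]
  refine Finset.sum_congr rfl fun i _ => ?_
  rw [e_cc]

lemma sumQ_l (m : Fin r → Fin n → ℕ) (b : Fin (n + 1) → ℚ) :
    ∑ i, b i * (ext1 m (Fin.last r) i : ℚ) = b (Fin.last n) := by
  rw [Fin.sum_univ_castSucc, e_ll, Nat.cast_one, mul_one]
  rw [Finset.sum_eq_zero, zero_add]
  intro i _
  rw [e_lc, Nat.cast_zero, mul_zero]

lemma ford_eq (m : Fin r → Fin n → ℕ) (a : Fin (n + 1) → ℕ) :
    ford (0 : Fin (n + 1) → ℕ) (ext1 m) 1 a = gord (ext1 m) a := by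
  unfold ford
  simp

theorem main (m : Fin r → Fin n → ℕ) (hr : 0 < r) (a : Fin (n + 1) → ℕ)
    (hray : IsRay (ext1 m) a) (hG : 0 < gord (ext1 m) a) :
    IsRay m (Fin.init a) ∧ 0 < gord m (Fin.init a) ∧ a (Fin.last n) = gord m (Fin.init a) ∧
        gord (ext1 m) a = gord m (Fin.init a) := by
  have : Nonempty (Fin r) := ⟨⟨0, hr⟩⟩
  obtain ⟨j0, hj0⟩ := exists_eq_ciInf_of_finite (f := fun j => ∑ i, Fin.init a i * m j i)
  have hN : ∑ i, Fin.init a i * m j0 i = gord m (Fin.init a) := hj0
  have hNle : ∀ j, gord m (Fin.init a) ≤ ∑ i, Fin.init a i * m j i := fun j =>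
    ciInf_le' (fun j => ∑ i, Fin.init a i * m j i) j
  have hGle : ∀ j, gord (ext1 m) a ≤ ∑ i, a i * ext1 m j i := fun j =>
    ciInf_le' (fun j => ∑ i, a i * ext1 m j i) j
  have hGN : gord (ext1 m) a ≤ gord m (Fin.init a) := by
    have := hGle j0.castSucc
    rwa [sum_c, hN] at this
  have hGk : gord (ext1 m) a ≤ a (Fin.last n) := by
    have := hGle (Fin.last r)
    rwa [sum_l] at this
  have hk0 : a (Fin.last n) ≠ 0 := by omega
  have hex : gord (ext1 m) a = gord m (Fin.init a) ∨ gord (ext1 m) a = a (Fin.last n) := by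
    obtain ⟨j1, hj1⟩ := exists_eq_ciInf_of_finite (f := fun j => ∑ i, a i * ext1 m j i)
    have hj1' : ∑ i, a i * ext1 m j1 i = gord (ext1 m) a := hj1
    refine Fin.lastCases ?_ ?_ j1 (motive := fun j => ∑ i, a i * ext1 m j i = gord (ext1 m) a → _) hj1'
    · intro h
      rw [sum_l] at h
      exact Or.inr h.symm
    · intro j h
      rw [sum_c] at h
      left
      have := hNle j
      omega
  have hzero : (∀ i, Fin.init a i = 0) → False := by
    intro h
    have h0 : ∑ i, Fin.init a i * m j0 i = 0 := Finset.sum_eq_zero fun i _ => by rw [h i, zero_mul]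
    omega
  have hkN : a (Fin.last n) = gord m (Fin.init a) := by
    by_contra hne
    obtain ⟨ρ, hρ⟩ := hray.2 (fun i => if i = Fin.last n then 1 else 0)
      (by
        intro i hi
        have : i ≠ Fin.last n := by
          rintro rfl
          exact hk0 hi
        rw [if_neg this])
      (by
        have hc : ∀ j : Fin r, ∑ i, (if i = Fin.last n then (1 : ℚ) else 0) *
            (ext1 m j.castSucc i : ℚ) = 0 := by
          intro j
          rw [sumQ_c]
          refine Finset.sum_eq_zero fun i _ => ?_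
          rw [if_neg (Fin.castSucc_ne_last i), zero_mul]
        have hmix : ∀ j : Fin r, face (ext1 m) a j.castSucc → face (ext1 m) a (Fin.last r) →
            False := by
          intro j h1 h2
          unfold face at h1 h2
          rw [sum_c] at h1
          rw [sum_l] at h2
          have := hNle j
          omega
        intro j j' h1 h2
        induction j using Fin.lastCases with
        | last =>
          induction j' using Fin.lastCases with
          | last => rfl
          | cast j' => exact absurd h1 fun h => hmix j' h2 h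
        | cast j =>
          induction j' using Fin.lastCases with
          | last => exact absurd h2 fun h => hmix j h1 h
          | cast j' => rw [hc, hc])
    have h1 := hρ (Fin.last n)
    rw [if_pos rfl] at h1
    have hρ0 : ρ ≠ 0 := by
      rintro rfl
      rw [zero_mul] at h1
      exact one_ne_zero h1
    apply hzero
    intro i
    have h2 := hρ i.castSucc
    rw [if_neg (Fin.castSucc_ne_last i)] at h2
    have h3 : (a i.castSucc : ℚ) = 0 := by
      rcases mul_eq_zero.1 h2.symm with h | h
      · exact absurd h hρ0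
      · exact h
    have h4 : a i.castSucc = 0 := by exact_mod_cast h3
    exact h4
  have hGN' : gord (ext1 m) a = gord m (Fin.init a) := by
    rcases hex with h | h
    · exact h
    · rw [h, hkN]
  refine ⟨⟨fun h => hzero fun i => by rw [h]; rfl, fun u hu hf => ?_⟩, by omega, hkN, hGN'⟩
  obtain ⟨ρ, hρ⟩ := hray.2 (Fin.snoc (α := fun _ => ℚ) u (∑ i, u i * (m j0 i : ℚ)))
    (by
      intro i hi
      induction i using Fin.lastCases with
      | last => exact absurd hi hk0
      | cast i =>
        rw [Fin.snoc_castSucc (α := fun _ => ℚ)]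
        exact hu i hi)
    (by
      have hall : ∀ j, face (ext1 m) a j → ∑ i, (Fin.snoc (α := fun _ => ℚ) u
          (∑ i, u i * (m j0 i : ℚ)) : Fin (n + 1) → ℚ) i * (ext1 m j i : ℚ) =
          ∑ i, u i * (m j0 i : ℚ) := by
        intro j h1
        induction j using Fin.lastCases with
        | last => rw [sumQ_l, Fin.snoc_last (α := fun _ => ℚ)]
        | cast j =>
          rw [sumQ_c]
          have h2 : ∀ i : Fin n, (Fin.snoc (α := fun _ => ℚ) u
              (∑ i, u i * (m j0 i : ℚ)) : Fin (n + 1) → ℚ) i.castSucc * (m j i : ℚ) =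
              u i * (m j i : ℚ) := by
            intro i
            rw [Fin.snoc_castSucc (α := fun _ => ℚ)]
          rw [Finset.sum_congr rfl fun i _ => h2 i]
          refine hf j j0 ?_ ?_
          · unfold face at h1 ⊢
            rw [sum_c] at h1
            rw [h1, hGN']
          · exact hN
      intro j j' h1 h2
      rw [hall j h1, hall j' h2])
  refine ⟨ρ, fun i => ?_⟩
  have h1 := hρ i.castSucc
  rw [Fin.snoc_castSucc (α := fun _ => ℚ)] at h1
  exact h1

end RAY

theorem t_RAY : S_RAY := by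
  intro n r m hr a hray hpos
  rw [RAY.ford_eq] at hpos ⊢
  exact RAY.main m hr a hray hpos

end Pool.Agent.NH52.CI
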