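import Pool.Agent.NH52.CI.Stm

set_option autoImplicit false

/-! # Functional equations and translations -/

namespace Pool.Agent.NH52.CI

open MvPolynomial Pool.Agent.W574.SM

namespace Tra

variable {n : ℕ} (p : Fin n → ℂ)

theorem tr_X (j : Fin n) : tr p (X j) = X j + C (p j) := by
  unfold tr
  rw [aeval_X]

theorem tr_C (z : ℂ) : tr p (C z) = C z := by
  rw [← algebraMap_eq, AlgHom.commutes]

theorem pderiv_tr (i : Fin n) (g : MvPolynomial (Fin n) ℂ) : pderiv i (tr p g) = tr p (pderiv i g) := by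
  induction g using MvPolynomial.induction_on with
  | C a => rw [tr_C, pderiv_C, map_zero]
  | add g h hg hh => rw [map_add, map_add, hg, hh, map_add, map_add]
  | mul_X g j hg =>
    rw [map_mul, tr_X, Derivation.leibniz, Derivation.leibniz, map_add, map_add, hg, smul_eq_mul, smul_eq_mul,
      smul_eq_mul, smul_eq_mul, map_mul, map_mul, tr_X, pderiv_C, pderiv_X, add_zero]
    congr 2
    by_cases hij : i = j
    · subst hij
      rw [Pi.single_eq_same, map_one]
    · rw [Pi.single_eq_of_ne' hij, map_zero]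

theorem conj (Q : Module.End ℂ (MvPolynomial (Fin n) ℂ)) (hQ : Q ∈ weyl (Fin n)) :
    ∃ Q' ∈ weyl (Fin n), ∀ g, Q' (tr p g) = tr p (Q g) := by
  unfold weyl at hQ
  induction hQ using Algebra.adjoin_induction with
  | mem Q hQ =>
    rcases hQ with ⟨i, rfl⟩ | ⟨i, rfl⟩
    · refine ⟨LinearMap.mulLeft ℂ (X i : MvPolynomial (Fin n) ℂ) +
        algebraMap ℂ (Module.End ℂ (MvPolynomial (Fin n) ℂ)) (p i), ?_, fun g => ?_⟩
      · exact add_mem (Algebra.subset_adjoin (Or.inl ⟨i, rfl⟩)) (Subalgebra.algebraMap_mem _ _)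
      · rw [LinearMap.add_apply, LinearMap.mulLeft_apply, LinearMap.mulLeft_apply, map_mul, tr_X,
          Module.algebraMap_end_apply, add_mul, smul_eq_C_mul]
    · exact ⟨_, Algebra.subset_adjoin (Or.inr ⟨i, rfl⟩), fun g => pderiv_tr p i g⟩
  | algebraMap r =>
    refine ⟨_, Subalgebra.algebraMap_mem _ r, fun g => ?_⟩
    rw [Module.algebraMap_end_apply, Module.algebraMap_end_apply, map_smul]
  | add Q R _ _ hQ hR =>
    obtain ⟨Q', hQ', h1⟩ := hQ
    obtain ⟨R', hR', h2⟩ := hR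
    refine ⟨Q' + R', add_mem hQ' hR', fun g => ?_⟩
    rw [LinearMap.add_apply, LinearMap.add_apply, h1, h2, map_add]
  | mul Q R _ _ hQ hR =>
    obtain ⟨Q', hQ', h1⟩ := hQ
    obtain ⟨R', hR', h2⟩ := hR
    refine ⟨Q' * R', mul_mem hQ' hR', fun g => ?_⟩
    rw [Module.End.mul_apply, Module.End.mul_apply, h2, h1]

theorem conj' : ∃ W : weyl (Fin n) → weyl (Fin n), W 0 = 0 ∧
    ∀ Q g, (W Q : Module.End ℂ (MvPolynomial (Fin n) ℂ)) (tr p g) =
      tr p ((Q : Module.End ℂ (MvPolynomial (Fin n) ℂ)) g) := by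
  classical
  have h : ∀ Q : weyl (Fin n), ∃ Q' : weyl (Fin n), ∀ g,
      (Q' : Module.End ℂ (MvPolynomial (Fin n) ℂ)) (tr p g) =
        tr p ((Q : Module.End ℂ (MvPolynomial (Fin n) ℂ)) g) := by
    intro Q
    obtain ⟨Q', h1, h2⟩ := conj p Q.1 Q.2
    exact ⟨⟨Q', h1⟩, h2⟩
  choose W hW using h
  refine ⟨fun Q => if Q = 0 then 0 else W Q, if_pos rfl, fun Q g => ?_⟩
  beta_reduce
  by_cases hQ : Q = 0
  · subst hQ
    rw [if_pos rfl]
    simp
  · rw [if_neg hQ]
    exact hW Q g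

theorem applyAt_tr {ι : Type} [Fintype ι] (W : weyl (Fin n) → weyl (Fin n)) (hW0 : W 0 = 0)
    (hW : ∀ Q g, (W Q : Module.End ℂ (MvPolynomial (Fin n) ℂ)) (tr p g) =
      tr p ((Q : Module.End ℂ (MvPolynomial (Fin n) ℂ)) g)) (P : (ι →₀ ℕ) →₀ weyl (Fin n)) (s : ι → ℕ)
    (u : MvPolynomial (Fin n) ℂ) : applyAt (P.mapRange W hW0) s (tr p u) = tr p (applyAt P s u) := by
  unfold applyAt
  rw [Finsupp.sum_mapRange_index (by intro a; simp), Finsupp.sum, Finsupp.sum, map_sum]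
  refine Finset.sum_congr rfl fun β _ => ?_
  rw [map_smul, hW]

end Tra

open Tra in
theorem t_TRA : S_TRA := by
  intro ι _ n p g b hb
  obtain ⟨S, P, hS, h⟩ := hb
  obtain ⟨W, hW0, hW⟩ := conj' p
  refine ⟨S, fun c => (P c).mapRange W hW0, hS, fun s => ?_⟩
  have h1 := congrArg (tr p) (h s)
  rw [map_mul, tr_C, map_prod, map_sum] at h1
  have h2 : ∏ j, tr p (g j) ^ s j = ∏ j, tr p (g j ^ s j) :=
    Finset.prod_congr rfl fun j _ => (map_pow _ _ _).symm
  rw [h2, h1]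
  refine Finset.sum_congr rfl fun c _ => ?_
  rw [← applyAt_tr p W hW0 hW, map_mul, tr_C, map_prod]
  have h3 : ∏ j, tr p (g j) ^ ((s j : ℤ) + c j).toNat = ∏ j, tr p (g j ^ ((s j : ℤ) + c j).toNat) :=
    Finset.prod_congr rfl fun j _ => (map_pow _ _ _).symm
  rw [h3]

end Pool.Agent.NH52.CI
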